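import Pool.Agent.H54.MQ.Fe

/-!
Block PC (project MP_78d38b_MQ, helper54): the first moment bound for a pattern.
-/

set_option autoImplicit false
set_option linter.unusedSectionVars false
open scoped Classical

open WithZero NumberField IsDedekindDomain H38RT
open H38T1 (SC sc scu rep eo la si Pri OddP tp unif)
open H76PP H54PP H36MT H76MQ

namespace H54MQ

/-- The number of pairs for which the pattern `r` is realised by a nonzero class. -/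
theorem bad_countR (K : Type) [Field K] [NumberField K] (hfin : ∀ X : ℝ, (Bx K X).Finite)
    (S : Finset (HeightOneSpectrum (𝓞 K))) (e : ℕ) (he : 1 ≤ e) :
    ∃ (C : ℝ) (N₀ : ℕ), 0 < C ∧
    ∀ T : Finset (HeightOneSpectrum (𝓞 K)),
      (∀ v ∈ T, N₀ ≤ Nv v ∧ (6 : 𝓞 K) ∉ v.asIdeal ∧ v ∉ S) → ∃ X₀ : ℝ, ∀ X : ℝ, X₀ ≤ X →
      ∀ (q₀ : HeightOneSpectrum (𝓞 K)) (r : HeightOneSpectrum (𝓞 K) → ZMod 2),
        ({p : 𝓞 K × 𝓞 K | p ∈ Bx K X ∧ FamS S e q₀ T p.1 p.2 ∧ BadR S T r p.1 p.2}.ncard : ℝ) ≤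
          C * (∏ v ∈ T, ((1 + 1 / (Nv v : ℝ)) ^ 2 / 4)) * X ^ (5 * Module.finrank ℚ K) := by
  obtain ⟨C₂, hC₂, hdat⟩ := exists_datR K S e he
  obtain ⟨C, N₀, hC, h⟩ := datE_count K C₂
  refine ⟨C, N₀, hC, fun T hT => ?_⟩
  obtain ⟨X₀, hX₀⟩ := h T fun v hv => ⟨(hT v hv).1, (hT v hv).2.1⟩
  refine ⟨max X₀ 0, fun X hX q₀ r => ?_⟩
  refine le_trans ?_ (hX₀ X ((le_max_left _ _).trans hX) (eps r)
    fun v hv => (eps_ok r (hT v hv).2.1).nm)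
  have hf : {p : 𝓞 K × 𝓞 K | p ∈ Bx K X ∧ ∃ (l : Fin 3 → ℝ)
      (M N : Matrix (Fin 3) (Fin 3) (𝓞 K)), DatE (eps r) X C₂ T p.1 p.2 l M N}.Finite :=
    (hfin X).subset fun p hp => hp.1
  have hsub : {p : 𝓞 K × 𝓞 K | p ∈ Bx K X ∧ FamS S e q₀ T p.1 p.2 ∧ BadR S T r p.1 p.2} ⊆
      {p : 𝓞 K × 𝓞 K | p ∈ Bx K X ∧ ∃ (l : Fin 3 → ℝ)
      (M N : Matrix (Fin 3) (Fin 3) (𝓞 K)), DatE (eps r) X C₂ T p.1 p.2 l M N} := fun p hp =>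
    ⟨hp.1, hdat q₀ T (fun v hv => (hT v hv).2) p.1 p.2 X
      ((le_max_right _ _).trans hX) hp.1 hp.2.1 r hp.2.2⟩
  have h1 := Set.ncard_le_ncard hsub hf
  exact_mod_cast h1

end H54MQ
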