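import Pool.Agent.H54.MQ.D0

/-!
Block PC (project MP_78d38b_MQ, helper54): the number of `N` for a fixed `M`, twisted residue condition.
-/

set_option autoImplicit false
set_option linter.unusedSectionVars false
open scoped Classical

open NumberField IsDedekindDomain H76PP H54PP
open scoped Matrix

namespace H54MQ

section

variable {K : Type} [Field K] [NumberField K]

/-- The admissible reductions of the five entries. -/
def Ac_SE (ε : HeightOneSpectrum (𝓞 K) → 𝓞 K) (m : Fin 6 → 𝓞 K) (i₀ : Fin 6)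
    (v : HeightOneSpectrum (𝓞 K)) : Set (Fin 5 → 𝓞 K ⧸ v.asIdeal) :=
  (fun N : Matrix (Fin 3) (Fin 3) (𝓞 K ⧸ v.asIdeal) => fun j : Fin 5 => en N (i₀.succAbove j)) ''
    {N | N.IsSymm ∧ Rs (rd v (ε v • sy m)) (Ideal.Quotient.mk v.asIdeal (ε v) • N)}

theorem Ac_count (ε : HeightOneSpectrum (𝓞 K) → 𝓞 K) (m : Fin 6 → 𝓞 K)
    (v : HeightOneSpectrum (𝓞 K)) (h6 : (6 : 𝓞 K) ∉ v.asIdeal) (he : ε v ∉ v.asIdeal)
    (hd : (sy m).det ∉ v.asIdeal) :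
    4 * {N : Matrix (Fin 3) (Fin 3) (𝓞 K ⧸ v.asIdeal) | N.IsSymm ∧
      Rs (rd v (ε v • sy m)) (Ideal.Quotient.mk v.asIdeal (ε v) • N)}.ncard ≤
      Nv v ^ 3 * (Nv v + 1) ^ 2 := by
  have hfin := finite_residue v
  have hft : Fintype (𝓞 K ⧸ v.asIdeal) := Fintype.ofFinite _
  have he' := mk_ne he
  have hsm : (ε v • sy m : Matrix (Fin 3) (Fin 3) (𝓞 K)).IsSymm := (sy_symm m).smul _
  have hsm' : (rd v (ε v • sy m)).IsSymm := by
    unfold rd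
    exact hsm.map _
  have hdet : (rd v (ε v • sy m)).det ≠ 0 := by
    rw [rd_smul, Matrix.det_smul, Fintype.card_fin]
    exact mul_ne_zero (pow_ne_zero 3 he') (rd_det_ne hd)
  have h1 := Rs_count (six_ne h6) hsm' hdet
  have hc : Fintype.card (𝓞 K ⧸ v.asIdeal) = Nv v := by
    rw [← Nat.card_eq_fintype_card]
    exact card_residue v
  rw [hc] at h1
  refine le_trans (Nat.mul_le_mul_left 4 ?_) h1
  refine Set.ncard_le_ncard_of_injOn (fun N => Ideal.Quotient.mk v.asIdeal (ε v) • N) ?_ ?_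
    (Set.toFinite _)
  · rintro N ⟨h2, h3⟩
    exact ⟨h2.smul _, h3⟩
  · intro N _ N' _ h
    have h2 := congrArg (fun P => (Ideal.Quotient.mk v.asIdeal (ε v))⁻¹ • P) h
    simp only [smul_smul, inv_mul_cancel₀ he', one_smul] at h2
    exact h2

theorem Ac_cardE (ε : HeightOneSpectrum (𝓞 K) → 𝓞 K) (m : Fin 6 → 𝓞 K) (i₀ : Fin 6)
    (v : HeightOneSpectrum (𝓞 K)) (h6 : (6 : 𝓞 K) ∉ v.asIdeal) (he : ε v ∉ v.asIdeal)
    (hd : (sy m).det ∉ v.asIdeal) : ((Ac_SE ε m i₀ v).ncard : ℝ) ≤ (Nv v : ℝ) ^ 5 * rho v := by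
  have hfin := finite_residue v
  have h1 := Ac_count ε m v h6 he hd
  have h2 : (Ac_SE ε m i₀ v).ncard ≤ {N : Matrix (Fin 3) (Fin 3) (𝓞 K ⧸ v.asIdeal) | N.IsSymm ∧
      Rs (rd v (ε v • sy m)) (Ideal.Quotient.mk v.asIdeal (ε v) • N)}.ncard :=
    Set.ncard_image_le (Set.toFinite _)
  have h3 : 4 * (Ac_SE ε m i₀ v).ncard ≤ Nv v ^ 3 * (Nv v + 1) ^ 2 := (Nat.mul_le_mul_left 4 h2).trans h1
  have h4 : 4 * ((Ac_SE ε m i₀ v).ncard : ℝ) ≤ (Nv v : ℝ) ^ 3 * ((Nv v : ℝ) + 1) ^ 2 := by exact_mod_cast h3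
  have h5 : (0 : ℝ) < Nv v := by
    have := two_le_Nv v
    exact_mod_cast (by omega : 0 < Nv v)
  have h6 : (Nv v : ℝ) ^ 5 * rho v = (Nv v : ℝ) ^ 3 * ((Nv v : ℝ) + 1) ^ 2 / 4 := by
    unfold rho
    field_simp
  rw [h6]
  linarith

end

variable (K : Type) [Field K] [NumberField K]

theorem cnt_NE : ∃ C : ℝ, 1 ≤ C ∧ ∀ (ε : HeightOneSpectrum (𝓞 K) → 𝓞 K)
    (T : Finset (HeightOneSpectrum (𝓞 K))) (m : Fin 6 → 𝓞 K)
    (i₀ : Fin 6) (t : Fin 6 → ℝ), (∀ i, 0 ≤ t i) → cf m i₀ ≠ 0 →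
    (∀ v ∈ T, (6 : 𝓞 K) ∉ v.asIdeal ∧ (sy m).det ∉ v.asIdeal) →
    (∀ v ∈ T, ε v ∉ v.asIdeal) →
    ({y : Fin 6 → 𝓞 K | (∀ i, y i ∈ bx K (t i)) ∧ ∑ i, cf m i * y i = 0 ∧
      ∀ v ∈ T, RT ε v (sy m) (sy y)}.ncard : ℝ) ≤
    (∏ v ∈ T, (Nv v : ℝ)) ^ 5 * (∏ v ∈ T, rho v) *
      ∏ j : Fin 5, (C * (t (i₀.succAbove j) ^ (Module.finrank ℚ K) /
        (∏ v ∈ T, (Nv v : ℝ)) + 1)) := by
  obtain ⟨C, hC1, hC⟩ := count_primes K
  refine ⟨C, hC1, ?_⟩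
  intro ε T m i₀ t ht hcf hT hε
  have h0 := hC (Fin 5) T (Ac_SE ε m i₀) (fun j => t (i₀.succAbove j)) (fun j => ht _)
  obtain ⟨A, hA⟩ : ∃ A : Set (Fin 6 → 𝓞 K), A = {y : Fin 6 → 𝓞 K | (∀ i, y i ∈ bx K (t i)) ∧
    ∑ i, cf m i * y i = 0 ∧ ∀ v ∈ T, RT ε v (sy m) (sy y)} := ⟨_, rfl⟩
  obtain ⟨B, hB⟩ : ∃ B : Set (Fin 5 → 𝓞 K), B = {x : Fin 5 → 𝓞 K | (∀ i, x i ∈ bx K (t (i₀.succAbove i))) ∧
        ∀ v ∈ T, (fun i => Ideal.Quotient.mk v.asIdeal (x i)) ∈ Ac_SE ε m i₀ v} := ⟨_, rfl⟩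
  rw [← hA]
  rw [← hB] at h0
  have hBf : B.Finite := by
    refine Set.Finite.subset (Set.Finite.pi' fun i : Fin 5 => bx_finite K (t (i₀.succAbove i))) ?_
    intro x hx
    rw [hB] at hx
    exact hx.1
  have hAB : A.ncard ≤ B.ncard := by
    refine Set.ncard_le_ncard_of_injOn (fun y => fun j => y (i₀.succAbove j)) ?_ ?_ hBf
    · intro y hy
      rw [hA] at hy
      rw [hB]
      refine ⟨fun i => hy.1 _, fun v hv => ⟨rd v (sy y), ⟨?_, ?_⟩, ?_⟩⟩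
      · rw [rd_sy]
        exact sy_symm _
      · have h1 := hy.2.2 v hv
        unfold RT at h1
        rw [rd_smul v (ε v) (sy y)] at h1
        exact h1
      · funext j
        show en (rd v (sy y)) (i₀.succAbove j) = _
        rw [rd_sy, en_sy]
    · intro y hy y' hy' h
      rw [hA] at hy hy'
      have h1 : ∀ j, y (i₀.succAbove j) = y' (i₀.succAbove j) := fun j => congrFun h j
      have h2 := hy.2.1
      have h3 := hy'.2.1
      rw [Fin.sum_univ_succAbove _ i₀] at h2 h3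
      have h4 : ∑ j : Fin 5, cf m (i₀.succAbove j) * y (i₀.succAbove j) =
          ∑ j : Fin 5, cf m (i₀.succAbove j) * y' (i₀.succAbove j) :=
        Finset.sum_congr rfl fun j _ => by rw [h1 j]
      have h5 : cf m i₀ * y i₀ = cf m i₀ * y' i₀ := by
        rw [h4] at h2
        linear_combination h2 - h3
      have h6 : y i₀ = y' i₀ := mul_left_cancel₀ hcf h5
      funext i
      rcases Fin.eq_self_or_eq_succAbove i₀ i with h7 | ⟨j, h7⟩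
      · rw [h7]; exact h6
      · rw [h7]; exact h1 j
  have h1 : (A.ncard : ℝ) ≤ B.ncard := by exact_mod_cast hAB
  refine h1.trans (h0.trans ?_)
  refine mul_le_mul_of_nonneg_right ?_ (Finset.prod_nonneg fun j _ => ?_)
  · rw [← Finset.prod_pow, ← Finset.prod_mul_distrib]
    exact Finset.prod_le_prod (fun v _ => Nat.cast_nonneg _) fun v hv =>
      Ac_cardE ε m i₀ v (hT v hv).1 (hε v hv) (hT v hv).2
  · have h2 : 0 ≤ t (i₀.succAbove j) := ht _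
    have h3 : (0 : ℝ) ≤ ∏ v ∈ T, (Nv v : ℝ) := Finset.prod_nonneg fun v _ => Nat.cast_nonneg _
    have h4 : 0 ≤ t (i₀.succAbove j) ^ (Module.finrank ℚ K) / (∏ v ∈ T, (Nv v : ℝ)) := by positivity
    exact mul_nonneg (by linarith) (by linarith)

end H54MQ
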