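import Pool.Agent.H54.MQ.Ac

/-!
Block PC (project MP_78d38b_MQ, helper54): copy of `Pool/Agent/H54/PP/Bh.lean`, twisted residue condition.
-/

set_option autoImplicit false
set_option linter.unusedSectionVars false
open scoped Classical

open NumberField IsDedekindDomain H76PP H54PP
open scoped Matrix

namespace H54MQ


variable (K : Type) [Field K] [NumberField K]

private theorem Bh_alg {Q C x0 x1 x2 x4 x5 : ℝ} (hQ : 0 < Q) (hC : 1 ≤ C) (h0 : 1 ≤ x0)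
    (h1 : Q ≤ x1) (h2 : Q ≤ x2) (h4 : Q ≤ x4) (h5 : Q ≤ x5) :
    Q ^ 5 * ((C * (x0 / Q + 1)) * (C * (x1 / Q + 1)) * (C * (x2 / Q + 1)) * (C * (x4 / Q + 1)) *
      (C * (x5 / Q + 1))) ≤ 16 * C ^ 5 * ((x0 * x1 * x2 * x4 * x5) * (1 + Q / x0)) := by
  have hC0 : 0 < C := by linarith
  have hx0 : 0 < x0 := by linarith
  have key : ∀ x, Q ≤ x → 0 ≤ C * (x / Q + 1) ∧ C * (x / Q + 1) ≤ C * (2 * (x / Q)) := by
    intro x hx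
    have h : 1 ≤ x / Q := (one_le_div hQ).2 hx
    refine ⟨by positivity, mul_le_mul_of_nonneg_left (by linarith) hC0.le⟩
  have e0 : C * (x0 / Q + 1) = C * ((x0 / Q) * (1 + Q / x0)) := by
    field_simp
  have h00 : 0 ≤ C * (x0 / Q + 1) := by positivity
  have p1 : 0 < x1 := lt_of_lt_of_le hQ h1
  have p2 : 0 < x2 := lt_of_lt_of_le hQ h2
  have p4 : 0 < x4 := lt_of_lt_of_le hQ h4
  have p5 : 0 < x5 := lt_of_lt_of_le hQ h5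
  obtain ⟨a1, b1⟩ := key x1 h1
  obtain ⟨a2, b2⟩ := key x2 h2
  obtain ⟨a4, b4⟩ := key x4 h4
  obtain ⟨a5, b5⟩ := key x5 h5
  have hp : (C * (x0 / Q + 1)) * (C * (x1 / Q + 1)) * (C * (x2 / Q + 1)) * (C * (x4 / Q + 1)) *
      (C * (x5 / Q + 1)) ≤ (C * (x0 / Q + 1)) * (C * (2 * (x1 / Q))) * (C * (2 * (x2 / Q))) *
      (C * (2 * (x4 / Q))) * (C * (2 * (x5 / Q))) := by
    gcongr
  calc Q ^ 5 * ((C * (x0 / Q + 1)) * (C * (x1 / Q + 1)) * (C * (x2 / Q + 1)) *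
        (C * (x4 / Q + 1)) * (C * (x5 / Q + 1))) ≤
        Q ^ 5 * ((C * (x0 / Q + 1)) * (C * (2 * (x1 / Q))) * (C * (2 * (x2 / Q))) *
      (C * (2 * (x4 / Q))) * (C * (2 * (x5 / Q)))) := mul_le_mul_of_nonneg_left hp (by positivity)
    _ = 16 * C ^ 5 * ((x0 * x1 * x2 * x4 * x5) * (1 + Q / x0)) := by
        rw [e0]
        field_simp
        ring

theorem cnt_yE : ∃ C : ℝ, 1 ≤ C ∧ ∀ (ε : HeightOneSpectrum (𝓞 K) → 𝓞 K) (X τ G : ℝ) (T : Finset (HeightOneSpectrum (𝓞 K)))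
    (m : Fin 6 → 𝓞 K), 0 < τ → τ ≤ 1 → 1 ≤ G → 1 ≤ 2 * X * τ ^ 2 →
    (∀ v ∈ T, (6 : 𝓞 K) ∉ v.asIdeal ∧ (G ^ 4) ^ (Module.finrank ℚ K) < (Nv v : ℝ)) →
    (∀ v ∈ T, ε v ∉ v.asIdeal) →
    (∏ v ∈ T, (Nv v : ℝ)) ^ 2 ≤ (2 * X) ^ (Module.finrank ℚ K) → TgM τ G m →
    {y : Fin 6 → 𝓞 K | TgtE ε X τ G T m y}.Finite ∧
    ({y : Fin 6 → 𝓞 K | TgtE ε X τ G T m y}.ncard : ℝ) ≤
      C * (G ^ (6 * Module.finrank ℚ K) * (∏ v ∈ T, rho v) * X ^ (5 * Module.finrank ℚ K) *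
        (1 + (∏ v ∈ T, (Nv v : ℝ)) / (2 * X * τ ^ 2) ^ (Module.finrank ℚ K))) := by
  obtain ⟨C, hC1, hC⟩ := cnt_NE K
  have hn : 0 < Module.finrank ℚ K := Module.finrank_pos
  obtain ⟨n, hnd⟩ : ∃ n, n = Module.finrank ℚ K := ⟨_, rfl⟩
  rw [← hnd] at hn
  refine ⟨16 * C ^ 5 * 2 ^ (5 * n), ?_, ?_⟩
  · have h1 : (1 : ℝ) ≤ C ^ 5 := one_le_pow₀ hC1
    have h2 : (1 : ℝ) ≤ 2 ^ (5 * n) := one_le_pow₀ (by norm_num)
    nlinarith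
  intro ε X τ G T m hτ hτ1 hG hXτ hT hε hQ2 htm
  rw [← hnd] at hT hQ2 ⊢
  have hτ2 : 0 < τ ^ 2 := by positivity
  have hX : 0 < X := by
    by_contra hX
    have h1 : X ≤ 0 := not_lt.1 hX
    have h2 : X * τ ^ 2 ≤ 0 := mul_nonpos_of_nonpos_of_nonneg h1 hτ2.le
    linarith
  have hG0 : 0 < G := by linarith
  have hG2 : 1 ≤ G ^ 2 := one_le_pow₀ hG
  have hτ21 : τ ^ 2 ≤ 1 := pow_le_one₀ hτ.le hτ1
  have h2X : 1 ≤ 2 * X := by nlinarith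
  have hQpos : 0 < ∏ v ∈ T, (Nv v : ℝ) :=
    Finset.prod_pos fun v _ => by
      have := two_le_Nv v
      exact_mod_cast (by omega : 0 < Nv v)
  have htt : ∀ i, 0 ≤ tt X τ G i := by
    intro i
    unfold tt
    fin_cases i
    · change 0 ≤ 2 * X * τ ^ 2
      positivity
    · change 0 ≤ 2 * X * G * τ
      positivity
    · change 0 ≤ 2 * X * G
      positivity
    · change 0 ≤ 2 * X * G ^ 2
      positivity
    · change 0 ≤ 2 * X * G ^ 2 / τ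
      positivity
    · change 0 ≤ 2 * X * G ^ 2 / τ ^ 2
      positivity
  have hcf : cf m 3 ≠ 0 := by
    have h1 : cf m 3 = -(m 2 ^ 2) := by
      change m 0 * m 5 - m 2 ^ 2 = -(m 2 ^ 2)
      rw [htm.m0]
      ring
    rw [h1]
    exact neg_ne_zero.2 (pow_ne_zero 2 htm.n2)
  have hdet : (sy m).det = -(m 2 * m 2 * m 3) := by
    rw [Matrix.det_fin_three]
    change m 0 * m 3 * m 5 - m 0 * m 4 * m 4 - m 1 * m 1 * m 5 + m 1 * m 4 * m 2 + m 2 * m 1 * m 4 -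
      m 2 * m 3 * m 2 = _
    rw [htm.m0, htm.m1]
    ring
  have hdetv : ∀ v ∈ T, (6 : 𝓞 K) ∉ v.asIdeal ∧ (sy m).det ∉ v.asIdeal := by
    intro v hv
    obtain ⟨h6, hv2⟩ := hT v hv
    refine ⟨h6, ?_⟩
    have hb : (sy m).det ∈ bx K (G ^ 4) := by
      rw [hdet]
      have h1 := bx_neg (bx_mul (bx_mul htm.b2 htm.b2) htm.b3)
      have h2 : G * G * G ^ 2 = G ^ 4 := by ring
      rwa [h2] at h1
    have hne : (sy m).det ≠ 0 := by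
      rw [hdet]
      exact neg_ne_zero.2 (mul_ne_zero (mul_ne_zero htm.n2 htm.n2) htm.n3)
    exact not_mem_of_lt hb hne (by rw [← hnd]; exact hv2)
  have hbox : {y : Fin 6 → 𝓞 K | ∀ i, y i ∈ bx K (tt X τ G i)}.Finite :=
    Set.Finite.pi' fun i => bx_finite K _
  have hfin1 : {y : Fin 6 → 𝓞 K | TgtE ε X τ G T m y}.Finite := hbox.subset fun y hy => hy.bd
  have hfin2 : {y : Fin 6 → 𝓞 K | (∀ i, y i ∈ bx K (tt X τ G i)) ∧ ∑ i, cf m i * y i = 0 ∧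
      ∀ v ∈ T, RT ε v (sy m) (sy y)}.Finite := hbox.subset fun y hy => hy.1
  refine ⟨hfin1, ?_⟩
  have hle : ({y : Fin 6 → 𝓞 K | TgtE ε X τ G T m y}.ncard : ℝ) ≤
      ({y : Fin 6 → 𝓞 K | (∀ i, y i ∈ bx K (tt X τ G i)) ∧ ∑ i, cf m i * y i = 0 ∧
      ∀ v ∈ T, RT ε v (sy m) (sy y)}.ncard : ℝ) := by
    have h1 := Set.ncard_le_ncard (s := {y : Fin 6 → 𝓞 K | TgtE ε X τ G T m y})
      (t := {y : Fin 6 → 𝓞 K | (∀ i, y i ∈ bx K (tt X τ G i)) ∧ ∑ i, cf m i * y i = 0 ∧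
      ∀ v ∈ T, RT ε v (sy m) (sy y)})
      (fun y hy => ⟨hy.bd, hy.tr, fun v hv => hy.rs v hv (hdetv v hv).2⟩) hfin2
    exact_mod_cast h1
  have hcn := hC ε T m 3 (tt X τ G) htt hcf hdetv hε
  rw [← hnd, Fin.prod_univ_five] at hcn
  have e0 : tt X τ G ((3 : Fin 6).succAbove 0) = 2 * X * τ ^ 2 := rfl
  have e1 : tt X τ G ((3 : Fin 6).succAbove 1) = 2 * X * G * τ := rfl
  have e2 : tt X τ G ((3 : Fin 6).succAbove 2) = 2 * X * G := rfl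
  have e3 : tt X τ G ((3 : Fin 6).succAbove 3) = 2 * X * G ^ 2 / τ := rfl
  have e4 : tt X τ G ((3 : Fin 6).succAbove 4) = 2 * X * G ^ 2 / τ ^ 2 := rfl
  rw [e0, e1, e2, e3, e4] at hcn
  have hbig : ∀ t : ℝ, 0 ≤ t → 2 * X ≤ t ^ 2 → ∏ v ∈ T, (Nv v : ℝ) ≤ t ^ n := by
    intro t ht h1
    have h2 : (2 * X) ^ n ≤ (t ^ 2) ^ n := pow_le_pow_left₀ (by linarith) h1 n
    have h3 : (∏ v ∈ T, (Nv v : ℝ)) ^ 2 ≤ (t ^ n) ^ 2 := by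
      rw [← pow_mul, mul_comm n 2, pow_mul]
      exact hQ2.trans h2
    exact (pow_le_pow_iff_left₀ hQpos.le (by positivity) two_ne_zero).1 h3
  have g1 : 2 * X ≤ (2 * X * G * τ) ^ 2 := by
    have h1 : (2 * X * G * τ) ^ 2 = (2 * X) * ((2 * X * τ ^ 2) * G ^ 2) := by ring
    rw [h1]
    have h2 : 1 ≤ (2 * X * τ ^ 2) * G ^ 2 := one_le_mul_of_one_le_of_one_le hXτ hG2
    exact le_mul_of_one_le_right (by linarith) h2
  have hsq : ∀ t : ℝ, 2 * X ≤ t → 2 * X ≤ t ^ 2 := by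
    intro t ht
    nlinarith
  have g2 : 2 * X ≤ 2 * X * G := le_mul_of_one_le_right (by linarith) hG
  have g3 : 2 * X ≤ 2 * X * G ^ 2 / τ := by
    rw [le_div_iff₀ hτ]
    have h1 : 2 * X * τ ≤ 2 * X * 1 := mul_le_mul_of_nonneg_left hτ1 (by linarith)
    have h2 : 2 * X * 1 ≤ 2 * X * G ^ 2 := mul_le_mul_of_nonneg_left hG2 (by linarith)
    exact h1.trans h2
  have g4 : 2 * X ≤ 2 * X * G ^ 2 / τ ^ 2 := by
    rw [le_div_iff₀ hτ2]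
    have h1 : 2 * X * τ ^ 2 ≤ 2 * X * 1 := mul_le_mul_of_nonneg_left hτ21 (by linarith)
    have h2 : 2 * X * 1 ≤ 2 * X * G ^ 2 := mul_le_mul_of_nonneg_left hG2 (by linarith)
    exact h1.trans h2
  have halg := Bh_alg (Q := ∏ v ∈ T, (Nv v : ℝ)) (C := C) (x0 := (2 * X * τ ^ 2) ^ n)
    (x1 := (2 * X * G * τ) ^ n) (x2 := (2 * X * G) ^ n) (x4 := (2 * X * G ^ 2 / τ) ^ n)
    (x5 := (2 * X * G ^ 2 / τ ^ 2) ^ n) hQpos hC1 (one_le_pow₀ hXτ)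
    (hbig _ (by positivity) g1) (hbig _ (by positivity) (hsq _ g2))
    (hbig _ (by positivity) (hsq _ g3)) (hbig _ (by positivity) (hsq _ g4))
  have hrho : 0 ≤ ∏ v ∈ T, rho v := Finset.prod_nonneg fun v _ => by
    unfold rho
    positivity
  have hprod : (2 * X * τ ^ 2) ^ n * (2 * X * G * τ) ^ n * (2 * X * G) ^ n *
      (2 * X * G ^ 2 / τ) ^ n * (2 * X * G ^ 2 / τ ^ 2) ^ n =
      2 ^ (5 * n) * (G ^ (6 * n) * X ^ (5 * n)) := by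
    rw [← mul_pow, ← mul_pow, ← mul_pow, ← mul_pow, pow_mul, pow_mul, pow_mul, ← mul_pow, ← mul_pow]
    congr 1
    field_simp
  rw [hprod] at halg
  refine hle.trans (hcn.trans ?_)
  have h9 := mul_le_mul_of_nonneg_left halg hrho
  calc (∏ v ∈ T, (Nv v : ℝ)) ^ 5 * (∏ v ∈ T, rho v) *
        (C * ((2 * X * τ ^ 2) ^ n / (∏ v ∈ T, (Nv v : ℝ)) + 1) *
          (C * ((2 * X * G * τ) ^ n / (∏ v ∈ T, (Nv v : ℝ)) + 1)) *
          (C * ((2 * X * G) ^ n / (∏ v ∈ T, (Nv v : ℝ)) + 1)) *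
          (C * ((2 * X * G ^ 2 / τ) ^ n / (∏ v ∈ T, (Nv v : ℝ)) + 1)) *
          (C * ((2 * X * G ^ 2 / τ ^ 2) ^ n / (∏ v ∈ T, (Nv v : ℝ)) + 1))) =
      (∏ v ∈ T, rho v) * ((∏ v ∈ T, (Nv v : ℝ)) ^ 5 *
        (C * ((2 * X * τ ^ 2) ^ n / (∏ v ∈ T, (Nv v : ℝ)) + 1) *
          (C * ((2 * X * G * τ) ^ n / (∏ v ∈ T, (Nv v : ℝ)) + 1)) *
          (C * ((2 * X * G) ^ n / (∏ v ∈ T, (Nv v : ℝ)) + 1)) *
          (C * ((2 * X * G ^ 2 / τ) ^ n / (∏ v ∈ T, (Nv v : ℝ)) + 1)) *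
          (C * ((2 * X * G ^ 2 / τ ^ 2) ^ n / (∏ v ∈ T, (Nv v : ℝ)) + 1)))) := by ring
    _ ≤ _ := h9
    _ = 16 * C ^ 5 * 2 ^ (5 * n) * (G ^ (6 * n) * (∏ v ∈ T, rho v) * X ^ (5 * n) *
        (1 + (∏ v ∈ T, (Nv v : ℝ)) / (2 * X * τ ^ 2) ^ n)) := by ring

end H54MQ
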