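import Pool.Agent.H54.MQ.Bi

/-!
Block PC (project MP_78d38b_MQ, helper54): copy of `Pool/Agent/H54/PP/Bj.lean`, twisted residue condition.
-/

set_option autoImplicit false
set_option linter.unusedSectionVars false
open scoped Classical

open NumberField IsDedekindDomain H76PP H54PP
open scoped Matrix

namespace H54MQ

variable {K : Type} [Field K] [NumberField K]

theorem to_tgtE {ε : HeightOneSpectrum (𝓞 K) → 𝓞 K} {X C₂ τ : ℝ} (hC : 1 ≤ C₂) (hτ : τ ≤ c5 C₂)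
    {T : Finset (HeightOneSpectrum (𝓞 K))} {A B : 𝓞 K} {l : Fin 3 → ℝ}
    {M N : Matrix (Fin 3) (Fin 3) (𝓞 K)} (h : DatE ε X C₂ T A B l M N) (hl : l 0 < c5 C₂)
    (h0 : τ / 2 < l 0) (h0' : l 0 ≤ τ) {a b c : 𝓞 K} (ha : a ∈ bx K (1 / τ))
    (hb : b ∈ bx K (1 / τ)) (hc : c ∈ bx K (1 / τ ^ 2)) :
    TgtE ε X τ (3 * C₂ + 1) T (en ((pm a b c)ᵀ * M * pm a b c))
      (en ((pm a b c)ᵀ * N * pm a b c)) := by
  have h1 := to_tgt hC hτ h.dat hl h0 h0' ha hb hc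
  refine ⟨h1.tm, h1.tr, h1.bd, fun v hv hd => ?_⟩
  have hM' := conj_symm h.dat.symM (pm a b c)
  have hN' := conj_symm h.dat.symN (pm a b c)
  rw [sy_en hM'] at hd ⊢
  rw [sy_en hN']
  rw [conj_det _ (pm_det a b c)] at hd
  exact RT_conj (pm_det a b c) (h.res v hv hd)

variable (K)

theorem BdE_finite (ε : HeightOneSpectrum (𝓞 K) → 𝓞 K) (X C₂ : ℝ) (T : Finset (HeightOneSpectrum (𝓞 K))) (L : ℝ → Prop) :
    (BdE K ε X C₂ T L).Finite := by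
  have h : (Bx K X).Finite := by
    have h1 : Bx K X = bx K (X ^ 2) ×ˢ bx K (X ^ 3) := by
      ext p
      exact Iff.rfl
    rw [h1]
    exact (bx_finite K _).prod (bx_finite K _)
  exact h.subset fun p hp => hp.1

theorem cnt_BdE {C₂ : ℝ} (hC : 1 ≤ C₂) : ∃ C : ℝ, 0 < C ∧
    ∀ (ε : HeightOneSpectrum (𝓞 K) → 𝓞 K) (X τ : ℝ) (T : Finset (HeightOneSpectrum (𝓞 K))), 0 < τ → τ ≤ c5 C₂ → 1 ≤ 2 * X * τ ^ 2 →
    (∀ v ∈ T, (6 : 𝓞 K) ∉ v.asIdeal ∧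
      ((3 * C₂ + 1) ^ 4) ^ (Module.finrank ℚ K) < (Nv v : ℝ)) →
    (∀ v ∈ T, ε v ∉ v.asIdeal) →
    (∏ v ∈ T, (Nv v : ℝ)) ^ 2 ≤ (2 * X) ^ (Module.finrank ℚ K) →
    ((BdE K ε X C₂ T (fun x => x < c5 C₂ ∧ τ / 2 < x ∧ x ≤ τ)).ncard : ℝ) ≤
      C * ((∏ v ∈ T, rho v) * X ^ (5 * Module.finrank ℚ K) *
        (τ ^ (Module.finrank ℚ K) *
        (1 + (∏ v ∈ T, (Nv v : ℝ)) / (2 * X * τ ^ 2) ^ (Module.finrank ℚ K)))) := by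
  have hG : 1 ≤ 3 * C₂ + 1 := by linarith
  obtain ⟨C, hC0, hCt⟩ := cnt_TgtE K hG
  obtain ⟨c, hc0, hc⟩ := bx_lower K
  refine ⟨C / c ^ 3, by positivity, ?_⟩
  intro ε X τ T hτ0 hτ h1 hT hε hW
  have hτ1 : τ ≤ 1 := by
    have := c5_le hC
    linarith
  obtain ⟨hF, hcard⟩ := hCt ε X τ T hτ0 hτ1 h1 hT hε hW
  have hdat : ∀ p : 𝓞 K × 𝓞 K, ∃ D : (Fin 3 → ℝ) × (Matrix (Fin 3) (Fin 3) (𝓞 K) ×
      Matrix (Fin 3) (Fin 3) (𝓞 K)), p ∈ BdE K ε X C₂ T (fun x => x < c5 C₂ ∧ τ / 2 < x ∧ x ≤ τ) →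
      DatE ε X C₂ T p.1 p.2 D.1 D.2.1 D.2.2 ∧ (D.1 0 < c5 C₂ ∧ τ / 2 < D.1 0 ∧ D.1 0 ≤ τ) := by
    intro p
    by_cases hp : p ∈ BdE K ε X C₂ T (fun x => x < c5 C₂ ∧ τ / 2 < x ∧ x ≤ τ)
    · obtain ⟨-, l, M, N, h, hl⟩ := id hp
      exact ⟨(l, (M, N)), fun _ => ⟨h, hl⟩⟩
    · exact ⟨(0, (0, 0)), fun h => absurd h hp⟩
  choose D hD using hdat
  have key := Bj_card (S := BdE K ε X C₂ T (fun x => x < c5 C₂ ∧ τ / 2 < x ∧ x ≤ τ))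
    (b1 := bx K (1 / τ)) (b2 := bx K (1 / τ ^ 2)) hF
    (fun q => (en ((pm q.2.1 q.2.2.1 q.2.2.2)ᵀ * (D q.1).2.1 * pm q.2.1 q.2.2.1 q.2.2.2),
      en ((pm q.2.1 q.2.2.1 q.2.2.2)ᵀ * (D q.1).2.2 * pm q.2.1 q.2.2.1 q.2.2.2)))
    (by
      rintro ⟨p, a, b, c⟩ ⟨hp, ha, hb, hc⟩
      obtain ⟨h, hl1, hl2, hl3⟩ := hD p hp
      exact to_tgtE hC hτ h hl1 hl2 hl3 ha hb hc)
    (by
      rintro ⟨p, a, b, c⟩ ⟨hp, ha, hb, hc⟩ ⟨p', a', b', c'⟩ ⟨hp', ha', hb', hc'⟩ he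
      obtain ⟨h, -⟩ := hD p hp
      obtain ⟨h', -⟩ := hD p' hp'
      obtain ⟨e1, e2⟩ := Prod.mk.inj he
      obtain ⟨i1, i2⟩ := same_pair h.dat h'.dat e1 e2
      have i3 : p = p' := Prod.ext i1 i2
      subst i3
      obtain ⟨j1, j2, j3⟩ := same_P h.dat e1 e2
      exact Prod.ext rfl (Prod.ext j1 (Prod.ext j2 j3)))
  have key2 : ((BdE K ε X C₂ T (fun x => x < c5 C₂ ∧ τ / 2 < x ∧ x ≤ τ)).ncard : ℝ) *
      (((bx K (1 / τ)).ncard : ℝ) * (((bx K (1 / τ)).ncard : ℝ) *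
      ((bx K (1 / τ ^ 2)).ncard : ℝ))) ≤
      ({p : (Fin 6 → 𝓞 K) × (Fin 6 → 𝓞 K) | TgtE ε X τ (3 * C₂ + 1) T p.1 p.2}.ncard : ℝ) := by
    exact_mod_cast key
  have key3 := key2.trans hcard
  have e : C * ((1 / τ) ^ (3 * Module.finrank ℚ K) * (∏ v ∈ T, rho v) *
        X ^ (5 * Module.finrank ℚ K) *
        (1 + (∏ v ∈ T, (Nv v : ℝ)) / (2 * X * τ ^ 2) ^ (Module.finrank ℚ K))) =
      C * ((1 / τ) ^ (3 * Module.finrank ℚ K) * ((∏ v ∈ T, rho v) *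
        X ^ (5 * Module.finrank ℚ K) *
        (1 + (∏ v ∈ T, (Nv v : ℝ)) / (2 * X * τ ^ 2) ^ (Module.finrank ℚ K)))) := by ring
  rw [e] at key3
  have fin := Bj_real hc0 hτ0 (Nat.cast_nonneg _) (hc (1 / τ) (by positivity))
    (hc (1 / τ ^ 2) (by positivity)) key3
  refine fin.trans (le_of_eq ?_)
  ring

end H54MQ
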