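import Pool.Agent.H54.PP.Bl
import Pool.Agent.H54.MQ.Bj

/-!
Block PC (project MP_78d38b_MQ, helper54): copy of `Pool/Agent/H54/PP/Bl.lean`, twisted residue condition.
-/

set_option autoImplicit false
set_option linter.unusedSectionVars false
open scoped Classical

open NumberField IsDedekindDomain H76PP H54PP
open scoped Matrix

namespace H54MQ

variable (K : Type) [Field K] [NumberField K]

theorem case_twoE {C₂ : ℝ} (hC : 1 ≤ C₂) : ∃ (C : ℝ) (N₀ : ℕ), 0 < C ∧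
    ∀ T : Finset (HeightOneSpectrum (𝓞 K)),
      (∀ v ∈ T, N₀ ≤ Nv v ∧ (6 : 𝓞 K) ∉ v.asIdeal) → ∃ X₀ : ℝ, ∀ X : ℝ, X₀ ≤ X →
        ∀ ε : HeightOneSpectrum (𝓞 K) → 𝓞 K, (∀ v ∈ T, ε v ∉ v.asIdeal) →
        ((BdE K ε X C₂ T (fun x => x < c5 C₂)).ncard : ℝ) ≤
          C * (∏ v ∈ T, rho v) * X ^ (5 * Module.finrank ℚ K) := by
  obtain ⟨C, hC0, hcnt⟩ := cnt_BdE K hC
  obtain ⟨n, hn⟩ : ∃ n : ℕ, n = Module.finrank ℚ K := ⟨_, rfl⟩
  rw [← hn] at hcnt ⊢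
  have hn1 : 1 ≤ n := by
    rw [hn]
    exact Module.finrank_pos
  refine ⟨3 * C, ⌈((3 * C₂ + 1) ^ 4) ^ n⌉₊ + 1, by positivity, ?_⟩
  intro T hT
  obtain ⟨Q, hQd⟩ : ∃ Q : ℝ, Q = ∏ v ∈ T, (Nv v : ℝ) := ⟨_, rfl⟩
  have hQ0 : 0 ≤ Q := by
    rw [hQd]
    exact Finset.prod_nonneg fun v _ => Nat.cast_nonneg _
  have hT' : ∀ v ∈ T, (6 : 𝓞 K) ∉ v.asIdeal ∧ ((3 * C₂ + 1) ^ 4) ^ n < (Nv v : ℝ) := by
    intro v hv
    obtain ⟨h1, h2⟩ := hT v hv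
    refine ⟨h2, ?_⟩
    have h3 : ((⌈((3 * C₂ + 1) ^ 4) ^ n⌉₊ + 1 : ℕ) : ℝ) ≤ (Nv v : ℝ) := by exact_mod_cast h1
    have h4 := Nat.le_ceil (((3 * C₂ + 1) ^ 4) ^ n)
    push_cast at h3
    linarith
  refine ⟨Q ^ 2 + 1, fun X hX ε hε => ?_⟩
  have hX1 : 1 ≤ X := by
    have : 0 ≤ Q ^ 2 := by positivity
    linarith
  have hQX : Q ^ 2 ≤ (2 * X) ^ n := by
    calc Q ^ 2 ≤ 2 * X := by linarith
      _ ≤ (2 * X) ^ n := le_self_pow₀ (by linarith) (by omega)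
  have hc0 := c5_pos hC
  have hc1 := c5_le hC
  have hcnt' := fun τ => hcnt ε X τ T
  obtain ⟨c, hcd⟩ : ∃ c : ℝ, c = c5 C₂ := ⟨_, rfl⟩
  rw [← hcd] at hc0 hc1 hcnt' ⊢
  have hW : 0 ≤ (∏ v ∈ T, rho v) * X ^ (5 * n) := mul_nonneg (Bl_rho T) (by positivity)
  by_cases h0 : 1 ≤ 2 * X * c ^ 2
  · obtain ⟨J, hJ, hJ'⟩ := exists_last hc0 h0
    have hsub : BdE K ε X C₂ T (fun x => x < c) ⊆ ⋃ j ∈ Finset.range (J + 1),
        BdE K ε X C₂ T (fun x => x < c ∧ c / 2 ^ j / 2 < x ∧ x ≤ c / 2 ^ j) := by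
      rintro p ⟨hp, l, M, N, hD, hl⟩
      obtain ⟨j, hj1, hj2⟩ := exists_dyadic hc0 hD.dat.pos hl
      have hbig := (shape hC hD.dat (by rw [← hcd]; exact hl)).big
      have hj : j ≤ J := by
        refine hJ' j (hbig.trans (mul_le_mul_of_nonneg_left ?_ (by linarith)))
        rw [pow_two]
        exact mul_le_mul hj2 hj2 hD.dat.pos.le (by positivity)
      simp only [Set.mem_iUnion]
      exact ⟨j, Finset.mem_range.2 (Nat.lt_succ_of_le hj), hp, l, M, N, hD, hl, hj1, hj2⟩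
    have hfin : (⋃ j ∈ Finset.range (J + 1),
        BdE K ε X C₂ T (fun x => x < c ∧ c / 2 ^ j / 2 < x ∧ x ≤ c / 2 ^ j)).Finite :=
      Set.Finite.biUnion (Finset.finite_toSet _) fun j _ => BdE_finite K ε X C₂ T _
    have h1 := (Set.ncard_le_ncard hsub hfin).trans (Finset.set_ncard_biUnion_le _ _)
    have h2 : ((BdE K ε X C₂ T (fun x => x < c)).ncard : ℝ) ≤ ∑ j ∈ Finset.range (J + 1),
        ((BdE K ε X C₂ T (fun x => x < c ∧ c / 2 ^ j / 2 < x ∧ x ≤ c / 2 ^ j)).ncard : ℝ) := by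
      exact_mod_cast h1
    refine h2.trans ?_
    have h3 : ∀ j ∈ Finset.range (J + 1),
        ((BdE K ε X C₂ T (fun x => x < c ∧ c / 2 ^ j / 2 < x ∧ x ≤ c / 2 ^ j)).ncard : ℝ) ≤
        C * ((∏ v ∈ T, rho v) * X ^ (5 * n)) * ((c / 2 ^ j) ^ n *
          (1 + Q / (2 * X * (c / 2 ^ j) ^ 2) ^ n)) := by
      intro j hj
      have hj' : j ≤ J := Nat.lt_succ_iff.1 (Finset.mem_range.1 hj)
      have h4 := hcnt' (c / 2 ^ j) (by positivity)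
        (div_le_self hc0.le (one_le_pow₀ (by norm_num)))
        (Bl_mono hc0 (by linarith) hj' hJ) hT' hε (by rw [← hQd]; exact hQX)
      rw [← hQd] at h4
      refine h4.trans (le_of_eq ?_)
      ring
    refine (Finset.sum_le_sum h3).trans ?_
    rw [← Finset.mul_sum]
    have h5 := dyadic hn1 hc0 hc1 hQ0 hQX hJ
    calc C * ((∏ v ∈ T, rho v) * X ^ (5 * n)) * ∑ j ∈ Finset.range (J + 1),
          (c / 2 ^ j) ^ n * (1 + Q / (2 * X * (c / 2 ^ j) ^ 2) ^ n)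
        ≤ C * ((∏ v ∈ T, rho v) * X ^ (5 * n)) * 3 :=
          mul_le_mul_of_nonneg_left h5 (mul_nonneg hC0.le hW)
      _ = 3 * C * (∏ v ∈ T, rho v) * X ^ (5 * n) := by ring
  · have hempty : BdE K ε X C₂ T (fun x => x < c) = ∅ := by
      ext p
      refine ⟨?_, fun h => absurd h (Set.notMem_empty p)⟩
      rintro ⟨hp, l, M, N, hD, hl⟩
      exfalso
      apply h0
      have hbig := (shape hC hD.dat (by rw [← hcd]; exact hl)).big
      refine hbig.trans (mul_le_mul_of_nonneg_left ?_ (by linarith))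
      rw [pow_two]
      exact mul_le_mul hl.le hl.le hD.dat.pos.le hc0.le
    rw [hempty, Set.ncard_empty, Nat.cast_zero, mul_assoc]
    exact mul_nonneg (by positivity) hW

end H54MQ
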