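import Pool.Agent.H54.PP.Fin

/-!
Definitions for the block PC (counting with patterns) of the project MP_78d38b_MQ (helper54): copy of the chain
`Pool/Agent/H54/PP` with the residue condition twisted by an element `ε v` of `𝓞 K` at each prime `v`.
-/

set_option autoImplicit false
set_option linter.unusedSectionVars false
open scoped Classical

open NumberField IsDedekindDomain H76PP H54PP
open scoped Matrix

namespace H54MQ

variable {K : Type} [Field K] [NumberField K]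

/-- The residue condition at `v`, twisted by `ε v`. -/
def RT (ε : HeightOneSpectrum (𝓞 K) → 𝓞 K) (v : HeightOneSpectrum (𝓞 K))
    (M N : Matrix (Fin 3) (Fin 3) (𝓞 K)) : Prop :=
  Rs (rd v (ε v • M)) (rd v (ε v • N))

/-- The data attached to a pair `(A, B)`, with the twisted residue condition. -/
structure DatE (ε : HeightOneSpectrum (𝓞 K) → 𝓞 K) (X C₂ : ℝ)
    (T : Finset (HeightOneSpectrum (𝓞 K))) (A B : 𝓞 K)
    (l : Fin 3 → ℝ) (M N : Matrix (Fin 3) (Fin 3) (𝓞 K)) : Prop where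
  dat : Dat X C₂ ∅ A B l M N
  res : ∀ v ∈ T, M.det ∉ v.asIdeal → RT ε v M N

/-- The conditions on the entries `m`, `y` of `Pᵀ M P` and `Pᵀ N P`. -/
structure TgtE (ε : HeightOneSpectrum (𝓞 K) → 𝓞 K) (X τ G : ℝ)
    (T : Finset (HeightOneSpectrum (𝓞 K))) (m y : Fin 6 → 𝓞 K) : Prop where
  tm : TgM τ G m
  tr : ∑ i, cf m i * y i = 0
  bd : ∀ i, y i ∈ bx K (tt X τ G i)
  rs : ∀ v ∈ T, (sy m).det ∉ v.asIdeal → RT ε v (sy m) (sy y)

section BadSets

variable (K)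

/-- The pairs `(A, B)` with data whose `l 0` satisfies `L`. -/
def BdE (ε : HeightOneSpectrum (𝓞 K) → 𝓞 K) (X C₂ : ℝ) (T : Finset (HeightOneSpectrum (𝓞 K)))
    (L : ℝ → Prop) : Set (𝓞 K × 𝓞 K) :=
  {p | p ∈ Bx K X ∧ ∃ (l : Fin 3 → ℝ) (M N : Matrix (Fin 3) (Fin 3) (𝓞 K)),
    DatE ε X C₂ T p.1 p.2 l M N ∧ L (l 0)}

end BadSets

theorem RT_conj {ε : HeightOneSpectrum (𝓞 K) → 𝓞 K} {v : HeightOneSpectrum (𝓞 K)}
    {M N P : Matrix (Fin 3) (Fin 3) (𝓞 K)} (hP : P.det = 1) (h : RT ε v M N) :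
    RT ε v (Pᵀ * M * P) (Pᵀ * N * P) := by
  have h1 := Rs_rd_conj hP h
  have e : ∀ L : Matrix (Fin 3) (Fin 3) (𝓞 K), Pᵀ * (ε v • L) * P = ε v • (Pᵀ * L * P) := by
    intro L
    rw [Matrix.mul_smul, Matrix.smul_mul]
  rw [e, e] at h1
  exact h1

theorem rd_smul (v : HeightOneSpectrum (𝓞 K)) (a : 𝓞 K) (M : Matrix (Fin 3) (Fin 3) (𝓞 K)) :
    rd v (a • M) = (Ideal.Quotient.mk v.asIdeal a) • rd v M := by
  ext i j
  unfold rd
  rw [Matrix.map_apply, Matrix.smul_apply, Matrix.smul_apply, smul_eq_mul, smul_eq_mul, map_mul,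
    Matrix.map_apply]

theorem mk_ne {v : HeightOneSpectrum (𝓞 K)} {a : 𝓞 K} (h : a ∉ v.asIdeal) :
    Ideal.Quotient.mk v.asIdeal a ≠ 0 := fun h0 => h (Ideal.Quotient.eq_zero_iff_mem.1 h0)

end H54MQ
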