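import Pool.Agent.H54.MQ.Bj

/-!
Block PC (project MP_78d38b_MQ, helper54): copy of `Pool/Agent/H54/PP/Ia.lean`, twisted residue condition.
-/

set_option autoImplicit false
set_option linter.unusedSectionVars false
open scoped Classical

open NumberField IsDedekindDomain H76PP H54PP
open scoped Matrix

namespace H54MQ


variable (K : Type) [Field K] [NumberField K]

variable {K}

private theorem Ia_l {X C₂ c : ℝ} (hc : 0 < c) {T : Finset (HeightOneSpectrum (𝓞 K))}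
    {A B : 𝓞 K} {l : Fin 3 → ℝ} {M N : Matrix (Fin 3) (Fin 3) (𝓞 K)}
    (h : Dat X C₂ T A B l M N) (hl : c ≤ l 0) (i j : Fin 3) :
    l i * l j ≤ (C₂ / c ^ 2) ^ 2 + 1 := by
  have h0 := h.pos
  have h01 := h.le01
  have h12 := h.le12
  have hp := h.prod
  have h2 : l 2 ≤ C₂ / c ^ 2 := by
    rw [le_div_iff₀ (by positivity)]
    have h3 : c * c ≤ l 0 * l 1 := mul_le_mul hl (hl.trans h01) hc.le h0.le
    have hl2 : 0 < l 2 := by linarith
    nlinarith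
  have hpos : ∀ i, 0 < l i := by
    intro i
    fin_cases i
    · exact h0
    · show 0 < l 1
      linarith
    · show 0 < l 2
      linarith
  have hle : ∀ i, l i ≤ C₂ / c ^ 2 := by
    intro i
    fin_cases i
    · show l 0 ≤ _
      linarith
    · show l 1 ≤ _
      linarith
    · exact h2
  have h5 := mul_le_mul (hle i) (hle j) (hpos j).le ((hpos i).le.trans (hle i))
  nlinarith

private theorem Ia_det {E : ℝ} {M : Matrix (Fin 3) (Fin 3) (𝓞 K)} (h : ∀ i j, M i j ∈ bx K E) :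
    M.det ∈ bx K (6 * E ^ 3) := by
  rw [Matrix.det_fin_three]
  have e : 6 * E ^ 3 = E * E * E + E * E * E + E * E * E + E * E * E + E * E * E + E * E * E := by
    ring
  rw [e]
  exact bx_sub (bx_add (bx_add (bx_sub (bx_sub (bx_mul (bx_mul (h 0 0) (h 1 1)) (h 2 2))
    (bx_mul (bx_mul (h 0 0) (h 1 2)) (h 2 1))) (bx_mul (bx_mul (h 0 1) (h 1 0)) (h 2 2)))
    (bx_mul (bx_mul (h 0 1) (h 1 2)) (h 2 0))) (bx_mul (bx_mul (h 0 2) (h 1 0)) (h 2 1)))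
    (bx_mul (bx_mul (h 0 2) (h 1 1)) (h 2 0))

omit [NumberField K] in
private theorem Ia_en {S : Set (𝓞 K)} {M : Matrix (Fin 3) (Fin 3) (𝓞 K)} (h : ∀ i j, M i j ∈ S)
    (i : Fin 6) : en M i ∈ S := by
  unfold en
  fin_cases i <;> exact h _ _

variable (K)

private theorem Ia_fib {C t Q R : ℝ} (hC1 : 1 ≤ C) {n : ℕ} (hQ : 0 < Q) (hR : 0 ≤ R)
    (ht : Q ≤ t ^ n) {z : ℝ}
    (h : z ≤ Q ^ 5 * R * ∏ _j : Fin 5, (C * (t ^ n / Q + 1))) :
    z ≤ R * (2 * C) ^ 5 * (t ^ n) ^ 5 := by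
  rw [Finset.prod_const, Finset.card_univ, Fintype.card_fin] at h
  have h1 : 1 ≤ t ^ n / Q := by
    rw [le_div_iff₀ hQ, one_mul]
    exact ht
  have h2 : C * (t ^ n / Q + 1) ≤ 2 * C * (t ^ n / Q) := by nlinarith
  have h3 : 0 ≤ C * (t ^ n / Q + 1) := by positivity
  have h4 := pow_le_pow_left₀ h3 h2 5
  have h5 : Q ^ 5 * R * (C * (t ^ n / Q + 1)) ^ 5 ≤ Q ^ 5 * R * (2 * C * (t ^ n / Q)) ^ 5 :=
    mul_le_mul_of_nonneg_left h4 (by positivity)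
  refine (h.trans h5).trans (le_of_eq ?_)
  rw [mul_pow, div_pow]
  field_simp

theorem case_oneE {C₂ c : ℝ} (hC : 1 ≤ C₂) (hc : 0 < c) : ∃ (C : ℝ) (N₀ : ℕ), 0 < C ∧
    ∀ T : Finset (HeightOneSpectrum (𝓞 K)),
      (∀ v ∈ T, N₀ ≤ Nv v ∧ (6 : 𝓞 K) ∉ v.asIdeal) → ∃ X₀ : ℝ, ∀ X : ℝ, X₀ ≤ X →
        ∀ ε : HeightOneSpectrum (𝓞 K) → 𝓞 K, (∀ v ∈ T, ε v ∉ v.asIdeal) →
        ((BdE K ε X C₂ T (fun x => c ≤ x)).ncard : ℝ) ≤
          C * (∏ v ∈ T, rho v) * X ^ (5 * Module.finrank ℚ K) := by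
  obtain ⟨n, hn⟩ : ∃ n, n = Module.finrank ℚ K := ⟨_, rfl⟩
  have hn0 : n ≠ 0 := by
    rw [hn]
    exact Module.finrank_pos.ne'
  obtain ⟨E, hE⟩ : ∃ E : ℝ, E = (C₂ / c ^ 2) ^ 2 + 1 := ⟨_, rfl⟩
  have hE1 : 1 ≤ E := by
    rw [hE]
    nlinarith [sq_nonneg (C₂ / c ^ 2)]
  obtain ⟨C, hC1, hcnt⟩ := cnt_NE K
  obtain ⟨C', hC'1, hup⟩ := bx_upper K
  rw [← hn] at hup
  have hC0 : 0 < C := by linarith
  have hC'0 : 0 < C' := by linarith
  have hE0 : 0 < E := by linarith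
  refine ⟨(C' * E ^ n) ^ 6 * (2 * C) ^ 5 * (2 * E) ^ (5 * n), Nat.ceil ((6 * E ^ 3) ^ n) + 1,
    by positivity, ?_⟩
  intro T hT
  obtain ⟨Q, hQ⟩ : ∃ Q : ℝ, Q = ∏ v ∈ T, (Nv v : ℝ) := ⟨_, rfl⟩
  have hQ1 : 1 ≤ Q := by
    rw [hQ]
    refine Finset.prod_induction _ (fun x : ℝ => 1 ≤ x)
      (fun a b ha hb => one_le_mul_of_one_le_of_one_le ha hb) le_rfl ?_
    intro v _
    have := two_le_Nv v
    exact_mod_cast (by omega : 1 ≤ Nv v)
  obtain ⟨R, hR⟩ : ∃ R : ℝ, R = ∏ v ∈ T, rho v := ⟨_, rfl⟩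
  have hR0 : 0 ≤ R := by
    rw [hR]
    refine Finset.prod_nonneg fun v _ => ?_
    unfold rho
    positivity
  refine ⟨Q + 1, fun X hX ε hε => ?_⟩
  rw [← hR, ← hn]
  have hX0 : 0 < X := by linarith
  obtain ⟨t, ht⟩ : ∃ t : ℝ, t = 2 * X * E := ⟨_, rfl⟩
  have htX : X ≤ t := by
    rw [ht]
    nlinarith
  have ht1 : 1 ≤ t := by linarith
  have htn : Q ≤ t ^ n := by
    have := le_self_pow₀ ht1 hn0
    linarith
  -- the data
  have hdat : ∀ p : 𝓞 K × 𝓞 K, ∃ (M N : Matrix (Fin 3) (Fin 3) (𝓞 K)),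
      p ∈ BdE K ε X C₂ T (fun x => c ≤ x) → M.IsSymm ∧ N.IsSymm ∧ M.det ≠ 0 ∧
      (∀ i j, M i j ∈ bx K E) ∧ (∀ i j, N i j ∈ bx K t) ∧
      (∀ x : 𝓞 K, (x • M - N).det = M.det * (x ^ 3 + p.1 * x + p.2)) ∧
      (∀ v ∈ T, M.det ∉ v.asIdeal) ∧ ∀ v ∈ T, RT ε v M N := by
    intro p
    by_cases hp : p ∈ BdE K ε X C₂ T (fun x => c ≤ x)
    · obtain ⟨-, l, M, N, hDE, hl⟩ := hp
      have hD := hDE.dat
      have hM : ∀ i j, M i j ∈ bx K E := by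
        intro i j s
        rw [hE]
        exact (hD.bdM s i j).trans (Ia_l hc hD hl i j)
      have hN : ∀ i j, N i j ∈ bx K t := by
        intro i j s
        refine (hD.bdN s i j).trans ?_
        rw [ht, hE]
        exact mul_le_mul_of_nonneg_left (Ia_l hc hD hl i j) (by positivity)
      have hdet : ∀ v ∈ T, M.det ∉ v.asIdeal := by
        intro v hv
        refine not_mem_of_lt (Ia_det hM) hD.detM ?_
        rw [← hn]
        have h1 := (hT v hv).1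
        have h2 : ((Nat.ceil ((6 * E ^ 3) ^ n) + 1 : ℕ) : ℝ) ≤ (Nv v : ℝ) := by exact_mod_cast h1
        have h3 := Nat.le_ceil ((6 * E ^ 3) ^ n)
        push_cast at h2
        linarith
      exact ⟨M, N, fun _ => ⟨hD.symM, hD.symN, hD.detM, hM, hN, hD.char, hdet,
        fun v hv => hDE.res v hv (hdet v hv)⟩⟩
    · exact ⟨0, 0, fun h => absurd h hp⟩
  choose M N hMN using hdat
  -- the fibres
  obtain ⟨F, hF⟩ : ∃ F : (Fin 6 → 𝓞 K) → Set (Fin 6 → 𝓞 K), ∀ m, F m =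
      {y : Fin 6 → 𝓞 K | (∀ i, y i ∈ bx K t) ∧ ∑ i, cf m i * y i = 0 ∧
        ∀ v ∈ T, RT ε v (sy m) (sy y)} := ⟨_, fun _ => rfl⟩
  have hFf : ∀ m, (F m).Finite := by
    intro m
    rw [hF]
    refine Set.Finite.subset (Set.Finite.pi' (fun _ : Fin 6 => bx_finite K t)) ?_
    intro y hy
    exact hy.1
  obtain ⟨Sf, hSf⟩ : ∃ Sf : Finset (Fin 6 → 𝓞 K),
      Sf = Fintype.piFinset (fun _ : Fin 6 => (bx_finite K E).toFinset) := ⟨_, rfl⟩
  have hSfm : ∀ m, m ∈ Sf ↔ ∀ i, m i ∈ bx K E := by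
    intro m
    rw [hSf, Fintype.mem_piFinset]
    simp only [Set.Finite.mem_toFinset]
  have hSfc : (Sf.card : ℝ) ≤ (C' * E ^ n) ^ 6 := by
    rw [hSf, Fintype.card_piFinset, Finset.prod_const, Finset.card_univ, Fintype.card_fin,
      Nat.cast_pow]
    refine pow_le_pow_left₀ (Nat.cast_nonneg _) ?_ 6
    have h1 := hup E hE1
    rwa [Set.ncard_eq_toFinset_card _ (bx_finite K E)] at h1
  obtain ⟨S', hS'⟩ : ∃ S' : Finset (Fin 6 → 𝓞 K),
      S' = Sf.filter (fun m => (sy m).det ≠ 0 ∧ ∀ v ∈ T, (sy m).det ∉ v.asIdeal) := ⟨_, rfl⟩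
  have hfib : ∀ m ∈ S', ((F m).ncard : ℝ) ≤ R * (2 * C) ^ 5 * (t ^ n) ^ 5 := by
    intro m hm
    rw [hS', Finset.mem_filter] at hm
    obtain ⟨i₀, hi₀⟩ := exists_cf hm.2.1
    have h1 := hcnt ε T m i₀ (fun _ => t) (fun _ => by linarith) hi₀
      (fun v hv => ⟨(hT v hv).2, hm.2.2 v hv⟩) hε
    rw [← hF, ← hQ, ← hR, ← hn] at h1
    exact Ia_fib hC1 (by linarith) hR0 htn h1
  -- the map
  obtain ⟨Z, hZ⟩ : ∃ Z : Finset (Σ _ : (Fin 6 → 𝓞 K), Fin 6 → 𝓞 K),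
      Z = S'.sigma (fun m => (hFf m).toFinset) := ⟨_, rfl⟩
  have hcard : (BdE K ε X C₂ T (fun x => c ≤ x)).ncard ≤ Z.card := by
    rw [← Set.ncard_coe_finset]
    refine Set.ncard_le_ncard_of_injOn (fun p => ⟨en (M p), en (N p)⟩) ?_ ?_
      (Finset.finite_toSet _)
    · intro p hp
      obtain ⟨h1, h2, h3, h4, h5, h6, h7, h8⟩ := hMN p hp
      rw [Finset.mem_coe, hZ, Finset.mem_sigma]
      constructor
      · rw [hS', Finset.mem_filter, hSfm]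
        refine ⟨fun i => Ia_en h4 i, ?_⟩
        show (sy (en (M p))).det ≠ 0 ∧ ∀ v ∈ T, (sy (en (M p))).det ∉ v.asIdeal
        rw [sy_en h1]
        exact ⟨h3, h7⟩
      · rw [Set.Finite.mem_toFinset, hF]
        refine ⟨fun i => Ia_en h5 i, (char_cf h1 h2 h6).1, fun v hv => ?_⟩
        show RT ε v (sy (en (M p))) (sy (en (N p)))
        rw [sy_en h1, sy_en h2]
        exact h8 v hv
    · intro p hp p' hp' heq
      obtain ⟨h1, h2, h3, h4, h5, h6, h7, h8⟩ := hMN p hp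
      obtain ⟨k1, k2, k3, k4, k5, k6, k7, k8⟩ := hMN p' hp'
      simp only [Sigma.mk.injEq, heq_eq_eq] at heq
      have e1 : M p = M p' := by rw [← sy_en h1, ← sy_en k1, heq.1]
      have e2 : N p = N p' := by rw [← sy_en h2, ← sy_en k2, heq.2]
      rw [← e1, ← e2] at k6
      have h9 := char_unique h1 h2 h3 h6 k6
      exact Prod.ext h9.1 h9.2
  have hZc : (Z.card : ℝ) ≤ (Sf.card : ℝ) * (R * (2 * C) ^ 5 * (t ^ n) ^ 5) := by
    rw [hZ, Finset.card_sigma, Nat.cast_sum]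
    have h1 : ∀ m ∈ S', (((hFf m).toFinset.card : ℕ) : ℝ) ≤ R * (2 * C) ^ 5 * (t ^ n) ^ 5 := by
      intro m hm
      rw [← Set.ncard_eq_toFinset_card _ (hFf m)]
      exact hfib m hm
    refine (Finset.sum_le_sum h1).trans ?_
    rw [Finset.sum_const, nsmul_eq_mul]
    refine mul_le_mul_of_nonneg_right ?_ (by positivity)
    have h2 : S'.card ≤ Sf.card := by
      rw [hS']
      exact Finset.card_filter_le _ _
    exact_mod_cast h2
  have h1 : ((BdE K ε X C₂ T (fun x => c ≤ x)).ncard : ℝ) ≤ (Z.card : ℝ) := by exact_mod_cast hcard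
  refine (h1.trans hZc).trans ?_
  refine (mul_le_mul_of_nonneg_right hSfc (by positivity)).trans (le_of_eq ?_)
  rw [ht]
  have e1 : (((2 * X * E) ^ n) ^ 5 : ℝ) = (2 * E) ^ (5 * n) * X ^ (5 * n) := by
    rw [← pow_mul, mul_comm n 5, ← mul_pow]
    congr 1
    ring
  rw [e1]
  ring

end H54MQ
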