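import Pool.Agent.H54.MQ.Bl
import Pool.Agent.H54.MQ.Ia

/-!
Block PC (project MP_78d38b_MQ, helper54): the count of the pairs with twisted data.
-/

set_option autoImplicit false
set_option linter.unusedSectionVars false
open scoped Classical

open NumberField IsDedekindDomain H76PP H54PP
open scoped Matrix

namespace H54MQ

variable {K : Type} [Field K] [NumberField K]

theorem datE_mono {ε : HeightOneSpectrum (𝓞 K) → 𝓞 K} {X C₂ C₂' : ℝ} (h : C₂ ≤ C₂')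
    {T : Finset (HeightOneSpectrum (𝓞 K))}
    {A B : 𝓞 K} {l : Fin 3 → ℝ} {M N : Matrix (Fin 3) (Fin 3) (𝓞 K)}
    (hD : DatE ε X C₂ T A B l M N) : DatE ε X C₂' T A B l M N :=
  ⟨dat_mono h hD.dat, hD.res⟩

variable (K)

theorem datE_count_rho {C₂ : ℝ} (hC : 1 ≤ C₂) : ∃ (C : ℝ) (N₀ : ℕ), 0 < C ∧
    ∀ T : Finset (HeightOneSpectrum (𝓞 K)),
      (∀ v ∈ T, N₀ ≤ Nv v ∧ (6 : 𝓞 K) ∉ v.asIdeal) → ∃ X₀ : ℝ, ∀ X : ℝ, X₀ ≤ X →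
        ∀ ε : HeightOneSpectrum (𝓞 K) → 𝓞 K, (∀ v ∈ T, ε v ∉ v.asIdeal) →
        ({p : 𝓞 K × 𝓞 K | p ∈ Bx K X ∧ ∃ (l : Fin 3 → ℝ) (M N : Matrix (Fin 3) (Fin 3) (𝓞 K)),
          DatE ε X C₂ T p.1 p.2 l M N}.ncard : ℝ) ≤
          C * (∏ v ∈ T, rho v) * X ^ (5 * Module.finrank ℚ K) := by
  obtain ⟨Ca, Na, hCa, ha⟩ := case_twoE K hC
  obtain ⟨Cb, Nb, hCb, hb⟩ := case_oneE K hC (c5_pos hC)
  refine ⟨Ca + Cb, max Na Nb, by linarith, fun T hT => ?_⟩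
  obtain ⟨Xa, hXa⟩ := ha T (fun v hv => ⟨(le_max_left _ _).trans (hT v hv).1, (hT v hv).2⟩)
  obtain ⟨Xb, hXb⟩ := hb T (fun v hv => ⟨(le_max_right _ _).trans (hT v hv).1, (hT v hv).2⟩)
  refine ⟨max Xa Xb, fun X hX ε hε => ?_⟩
  have h1 := hXa X ((le_max_left _ _).trans hX) ε hε
  have h2 := hXb X ((le_max_right _ _).trans hX) ε hε
  have hsub : {p : 𝓞 K × 𝓞 K | p ∈ Bx K X ∧ ∃ (l : Fin 3 → ℝ)
      (M N : Matrix (Fin 3) (Fin 3) (𝓞 K)), DatE ε X C₂ T p.1 p.2 l M N} ⊆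
      BdE K ε X C₂ T (fun x => x < c5 C₂) ∪ BdE K ε X C₂ T (fun x => c5 C₂ ≤ x) := by
    rintro p ⟨hp, l, M, N, hD⟩
    rcases lt_or_ge (l 0) (c5 C₂) with h | h
    · exact Or.inl ⟨hp, l, M, N, hD, h⟩
    · exact Or.inr ⟨hp, l, M, N, hD, h⟩
  have h3 := Set.ncard_le_ncard hsub ((BdE_finite K ε X C₂ T _).union (BdE_finite K ε X C₂ T _))
  have h4 := h3.trans (Set.ncard_union_le _ _)
  have h5 : ({p : 𝓞 K × 𝓞 K | p ∈ Bx K X ∧ ∃ (l : Fin 3 → ℝ)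
      (M N : Matrix (Fin 3) (Fin 3) (𝓞 K)), DatE ε X C₂ T p.1 p.2 l M N}.ncard : ℝ) ≤
      ((BdE K ε X C₂ T (fun x => x < c5 C₂)).ncard : ℝ) +
        ((BdE K ε X C₂ T (fun x => c5 C₂ ≤ x)).ncard : ℝ) := by
    exact_mod_cast h4
  calc _ ≤ _ := h5
    _ ≤ _ := add_le_add h1 h2
    _ = _ := by ring

theorem datE_count (C₂ : ℝ) : ∃ (C : ℝ) (N₀ : ℕ), 0 < C ∧
    ∀ T : Finset (HeightOneSpectrum (𝓞 K)),
      (∀ v ∈ T, N₀ ≤ Nv v ∧ (6 : 𝓞 K) ∉ v.asIdeal) → ∃ X₀ : ℝ, ∀ X : ℝ, X₀ ≤ X →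
        ∀ ε : HeightOneSpectrum (𝓞 K) → 𝓞 K, (∀ v ∈ T, ε v ∉ v.asIdeal) →
        ({p : 𝓞 K × 𝓞 K | p ∈ Bx K X ∧ ∃ (l : Fin 3 → ℝ) (M N : Matrix (Fin 3) (Fin 3) (𝓞 K)),
          DatE ε X C₂ T p.1 p.2 l M N}.ncard : ℝ) ≤
          C * (∏ v ∈ T, ((1 + 1 / (Nv v : ℝ)) ^ 2 / 4)) * X ^ (5 * Module.finrank ℚ K) := by
  obtain ⟨C, N₀, hC, h⟩ := datE_count_rho K (C₂ := max C₂ 1) (le_max_right _ _)
  refine ⟨C, N₀, hC, fun T hT => ?_⟩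
  obtain ⟨X₀, hX₀⟩ := h T hT
  refine ⟨X₀, fun X hX ε hε => ?_⟩
  have h1 := hX₀ X hX ε hε
  refine le_trans ?_ h1
  have hfin : {p : 𝓞 K × 𝓞 K | p ∈ Bx K X ∧ ∃ (l : Fin 3 → ℝ)
      (M N : Matrix (Fin 3) (Fin 3) (𝓞 K)), DatE ε X (max C₂ 1) T p.1 p.2 l M N}.Finite := by
    refine (BdE_finite K ε X (max C₂ 1) T (fun _ => True)).subset ?_
    rintro p ⟨hp, l, M, N, hD⟩
    exact ⟨hp, l, M, N, hD, trivial⟩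
  have h2 := Set.ncard_le_ncard (s := {p : 𝓞 K × 𝓞 K | p ∈ Bx K X ∧ ∃ (l : Fin 3 → ℝ)
      (M N : Matrix (Fin 3) (Fin 3) (𝓞 K)), DatE ε X C₂ T p.1 p.2 l M N}) (by
    rintro p ⟨hp, l, M, N, hD⟩
    exact ⟨hp, l, M, N, datE_mono (le_max_left _ _) hD⟩) hfin
  exact_mod_cast h2

end H54MQ
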