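import Pool.Agent.H36.MT.Fe
import Pool.Agent.H54.MQ.Fin

/-!
Block PC (project MP_78d38b_MQ, helper54): the twisted residue condition at `v ∈ T` for a class with
`la w c = r` at the places above `v`.
-/

set_option autoImplicit false
set_option linter.unusedSectionVars false
open scoped Classical

open WithZero NumberField IsDedekindDomain H38RT
open scoped Matrix
open H38T1 (SC sc scu rep eo la si Pri OddP tp unif)
open H76PP H54PP H36MT

namespace H54MQ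

/-- The factor at `v` for the value `r` of the symbol. -/
structure EpsOk {K : Type} [Field K] [NumberField K] (v : HeightOneSpectrum (𝓞 K)) (r : ZMod 2)
    (a : 𝓞 K) : Prop where
  nm : a ∉ v.asIdeal
  one : r = 0 → a = 1
  ns : r ≠ 0 → ¬ IsSquare (Ideal.Quotient.mk v.asIdeal a)

theorem two_ne_res {K : Type} [Field K] [NumberField K] {v : HeightOneSpectrum (𝓞 K)}
    (h : (6 : 𝓞 K) ∉ v.asIdeal) : ringChar (𝓞 K ⧸ v.asIdeal) ≠ 2 := by
  intro h0
  apply h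
  have h1 : ((2 : ℕ) : 𝓞 K ⧸ v.asIdeal) = 0 := (ringChar.spec _ 2).2 (by rw [h0])
  have h2 : (2 : 𝓞 K) ∈ v.asIdeal := by
    rw [← Ideal.Quotient.eq_zero_iff_mem, map_ofNat]
    exact_mod_cast h1
  rw [show (6 : 𝓞 K) = 3 * 2 by norm_num]
  exact v.asIdeal.mul_mem_left _ h2

theorem exists_eps {K : Type} [Field K] [NumberField K] (v : HeightOneSpectrum (𝓞 K))
    (r : ZMod 2) : ∃ a : 𝓞 K, (6 : 𝓞 K) ∉ v.asIdeal → EpsOk v r a := by
  by_cases h6 : (6 : 𝓞 K) ∉ v.asIdeal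
  · by_cases hr : r = 0
    · refine ⟨1, fun _ => ⟨?_, fun _ => rfl, fun h => absurd hr h⟩⟩
      intro h1
      exact v.isPrime.ne_top ((Ideal.eq_top_iff_one _).2 h1)
    · haveI := finite_residue v
      obtain ⟨b, hb⟩ := FiniteField.exists_nonsquare (two_ne_res h6)
      obtain ⟨a, rfl⟩ := Ideal.Quotient.mk_surjective b
      refine ⟨a, fun _ => ⟨?_, fun h => absurd h hr, fun _ => hb⟩⟩
      intro h1
      apply hb
      rw [Ideal.Quotient.eq_zero_iff_mem.2 h1]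
      exact ⟨0, (mul_zero 0).symm⟩
  · exact ⟨0, fun h => absurd h h6⟩

/-- The factors for a pattern. -/
noncomputable def eps {K : Type} [Field K] [NumberField K]
    (r : HeightOneSpectrum (𝓞 K) → ZMod 2) (v : HeightOneSpectrum (𝓞 K)) : 𝓞 K :=
  (exists_eps v (r v)).choose

theorem eps_ok {K : Type} [Field K] [NumberField K] (r : HeightOneSpectrum (𝓞 K) → ZMod 2)
    {v : HeightOneSpectrum (𝓞 K)} (h6 : (6 : 𝓞 K) ∉ v.asIdeal) : EpsOk v (r v) (eps r v) :=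
  (exists_eps v (r v)).choose_spec h6

theorem la_eps {K : Type} [Field K] [NumberField K] {L : Type} [Field L] [NumberField L]
    [Algebra K L] {v : HeightOneSpectrum (𝓞 K)} {r : ZMod 2} {a : 𝓞 K} (ha : EpsOk v r a)
    {w : HeightOneSpectrum (𝓞 L)} (hw : OddP w) (χ : 𝓞 L →+* 𝓞 K ⧸ v.asIdeal)
    (hχ0 : ∀ x : 𝓞 L, χ x = 0 ↔ x ∈ w.asIdeal)
    (hχ1 : ∀ a : 𝓞 K, χ (algebraMap (𝓞 K) (𝓞 L) a) = Ideal.Quotient.mk v.asIdeal a) :
    la w (sc ((algebraMap (𝓞 K) (𝓞 L) a : 𝓞 L) : L)) = r := by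
  by_cases hr : r = 0
  · rw [hr, ha.one hr, map_one]
    have h1 : sc (((1 : 𝓞 L)) : L) = 0 :=
      (H38T1.sc_eq_zero (by
        rw [show (((1 : 𝓞 L)) : L) = 1 from map_one (algebraMap (𝓞 L) L)]
        exact one_ne_zero)).2 ⟨1, by
          rw [show (((1 : 𝓞 L)) : L) = 1 from map_one (algebraMap (𝓞 L) L), mul_one]⟩
    rw [h1]
    exact H38T1.la_zero hw
  · have h1 : la w (sc ((algebraMap (𝓞 K) (𝓞 L) a : 𝓞 L) : L)) ≠ 0 := by
      intro h0
      have hz : algebraMap (𝓞 K) (𝓞 L) a ∉ w.asIdeal := by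
        rw [← hχ0, hχ1, Ideal.Quotient.eq_zero_iff_mem]
        exact ha.nm
      have hne : algebraMap (𝓞 K) (𝓞 L) a ≠ 0 := by
        intro h2
        apply hz
        rw [h2]
        exact w.asIdeal.zero_mem
      have h2 := isSquare_res hw χ (fun x hx => (hχ0 x).2 hx) hne hz (pow_two _) h0
      rw [hχ1] at h2
      exact ha.ns hr h2
    have h2 : ∀ x y : ZMod 2, x ≠ 0 → y ≠ 0 → x = y := by decide
    exact h2 _ _ h1 hr

section

variable {K : Type} [Field K] [NumberField K] {A B : 𝓞 K} {L : Type} [Field L]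
    [NumberField L] [Algebra K L] {θ : L}

theorem coe_am (a : 𝓞 K) : ((algebraMap (𝓞 K) (𝓞 L) a : 𝓞 L) : L) = algebraMap K L (a : K) := rfl

theorem coe_mul (x y : 𝓞 L) : ((x * y : 𝓞 L) : L) = (x : L) * (y : L) := rfl

theorem Prs_smul (h : Cub K L (A : K) (B : K) θ) {δ : 𝓞 L} {e : Fin 3 → 𝓞 L} (hpr : Prs h δ e)
    (a : 𝓞 K) : Prs h (algebraMap (𝓞 K) (𝓞 L) a * δ) (fun i => algebraMap (𝓞 K) (𝓞 L) a * e i) := by
  intro i j
  obtain ⟨y, c, hy, hc⟩ := hpr i j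
  refine ⟨algebraMap (𝓞 K) (𝓞 L) a * y, fun k => a * c k, ?_, fun k => ?_⟩
  · calc algebraMap (𝓞 K) (𝓞 L) a * e i * (algebraMap (𝓞 K) (𝓞 L) a * e j)
        = algebraMap (𝓞 K) (𝓞 L) a * algebraMap (𝓞 K) (𝓞 L) a * (e i * e j) := by ring
      _ = _ := by
        rw [hy]
        ring
  · rw [coe_mul, coe_am, ← Algebra.smul_def, map_smul, smul_eq_mul, hc]
    exact (map_mul (algebraMap (𝓞 K) K) a (c k)).symm

theorem smul_form {a : 𝓞 K} (ha : a ≠ 0) (x y δ : L) :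
    (algebraMap K L (a : K) * x) * (algebraMap K L (a : K) * y) * (algebraMap K L (a : K) * δ)⁻¹ =
      (a : K) • (x * y * δ⁻¹) := by
  have h1 : algebraMap K L (a : K) ≠ 0 := by
    rw [map_ne_zero]
    exact RingOfIntegers.coe_ne_zero_iff.mpr ha
  rw [Algebra.smul_def, mul_inv]
  field_simp

theorem res_condR (h : Cub K L (A : K) (B : K) θ) {δ : 𝓞 L} (hδ : δ ≠ 0)
    {e : Fin 3 → 𝓞 L} (hpr : Prs h δ e)
    (hli : LinearIndependent K (fun i => (e i : L))) {M N : Matrix (Fin 3) (Fin 3) (𝓞 K)}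
    (hM : ∀ i j, (M i j : K) = Mx h (fun i => (e i : L)) (δ : L)⁻¹ i j)
    (hN : ∀ i j, (N i j : K) = Nx h (fun i => (e i : L)) (δ : L)⁻¹ i j)
    (hchar : ∀ x : 𝓞 K, (x • M - N).det = M.det * (x ^ 3 + A * x + B))
    {v : HeightOneSpectrum (𝓞 K)} (hd : dsc A B ∉ v.asIdeal ^ 2) (h6 : (6 : 𝓞 K) ∉ v.asIdeal)
    (htyp : ∃ t : 𝓞 K, t ^ 3 + A * t + B ∈ v.asIdeal ∧
      ∀ s : 𝓞 K, -3 * t ^ 2 - 4 * A - s ^ 2 ∉ v.asIdeal) {r : ZMod 2} {a : 𝓞 K}
    (ha : EpsOk v r a)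
    (hla : ∀ w : HeightOneSpectrum (𝓞 L), dn K w = v → la w (sc (δ : L)) = r)
    (hdet : M.det ∉ v.asIdeal) : Rs (rd v (a • M)) (rd v (a • N)) := by
  obtain ⟨t, ht, hts⟩ := htyp
  obtain ⟨w, χ, hdn, hχ0, hχ1, hχ⟩ := exists_placeL h (lb_of h hd) ht
  have hw : OddP w := by
    have h2 : (2 : 𝓞 L) ∉ w.asIdeal := by
      intro h2
      have h3 : (2 : 𝓞 K) ∈ v.asIdeal := by
        rw [← hdn]
        change algebraMap (𝓞 K) (𝓞 L) 2 ∈ w.asIdeal
        rw [map_ofNat]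
        exact h2
      apply h6
      rw [show (6 : 𝓞 K) = 3 * 2 by norm_num]
      exact v.asIdeal.mul_mem_left _ h3
    have h3 := (HeightOneSpectrum.valuation_eq_one_iff_notMem (K := L) w (r := (2 : 𝓞 L))).2 h2
    unfold H38T1.OddP
    have h4 : algebraMap (𝓞 L) L 2 = 2 := map_ofNat _ 2
    rw [h4] at h3
    exact h3
  have ha0 : a ≠ 0 := by
    rintro rfl
    exact ha.nm v.asIdeal.zero_mem
  have haK : (a : K) ≠ 0 := RingOfIntegers.coe_ne_zero_iff.mpr ha0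
  have haL : (algebraMap (𝓞 K) (𝓞 L) a : 𝓞 L) ≠ 0 := by
    intro h0
    have h1 := congrArg (fun x : 𝓞 L => (x : L)) h0
    rw [coe_am] at h1
    exact haK ((map_eq_zero _).1 (h1.trans (map_zero (algebraMap (𝓞 L) L))))
  have hδL : (δ : L) ≠ 0 := RingOfIntegers.coe_ne_zero_iff.mpr hδ
  have haLL : ((algebraMap (𝓞 K) (𝓞 L) a : 𝓞 L) : L) ≠ 0 := RingOfIntegers.coe_ne_zero_iff.mpr haL
  have hla' : la w (sc ((algebraMap (𝓞 K) (𝓞 L) a * δ : 𝓞 L) : L)) = 0 := by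
    rw [coe_mul, H38T1.sc_mul haLL hδL, H38T1.la_add hw, hla w hdn, la_eps ha hw χ hχ0 hχ1]
    have h2 : ∀ x : ZMod 2, x + x = 0 := by decide
    exact h2 r
  have hli' : LinearIndependent K (fun i => ((algebraMap (𝓞 K) (𝓞 L) a * e i : 𝓞 L) : L)) := by
    have h1 : (fun i => ((algebraMap (𝓞 K) (𝓞 L) a * e i : 𝓞 L) : L)) =
        fun i => (Units.mk0 (a : K) haK) • (e i : L) := by
      funext i
      rw [coe_mul, coe_am, Units.smul_def, Units.val_mk0, Algebra.smul_def]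
    rw [h1]
    exact hli.units_smul fun _ => Units.mk0 (a : K) haK
  have hM' : ∀ i j, ((a • M) i j : K) = Mx h (fun i => ((algebraMap (𝓞 K) (𝓞 L) a * e i : 𝓞 L) : L))
      ((algebraMap (𝓞 K) (𝓞 L) a * δ : 𝓞 L) : L)⁻¹ i j := by
    intro i j
    rw [Mx, Matrix.of_apply, coe_mul, coe_mul, coe_mul, coe_am, smul_form ha0, map_smul,
      smul_eq_mul]
    change ((a * M i j : 𝓞 K) : K) = (a : K) * Mx h (fun i => (e i : L)) (δ : L)⁻¹ i j
    rw [← hM]
    exact map_mul (algebraMap (𝓞 K) K) a (M i j)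
  have hN' : ∀ i j, ((a • N) i j : K) = Nx h (fun i => ((algebraMap (𝓞 K) (𝓞 L) a * e i : 𝓞 L) : L))
      ((algebraMap (𝓞 K) (𝓞 L) a * δ : 𝓞 L) : L)⁻¹ i j := by
    intro i j
    rw [Nx, Matrix.of_apply, coe_mul, coe_mul, coe_mul, coe_am, smul_form ha0, mul_smul_comm,
      map_smul, smul_eq_mul]
    change ((a * N i j : 𝓞 K) : K) = (a : K) * Nx h (fun i => (e i : L)) (δ : L)⁻¹ i j
    rw [← hN]
    exact map_mul (algebraMap (𝓞 K) K) a (N i j)
  have hdm : (a • M).det = a ^ 3 * M.det := by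
    rw [Matrix.det_smul, Fintype.card_fin]
  have hchar' : ∀ x : 𝓞 K, (x • (a • M) - a • N).det = (a • M).det * (x ^ 3 + A * x + B) := by
    intro x
    rw [smul_comm x a M, ← smul_sub, Matrix.det_smul, Fintype.card_fin, hchar, hdm]
    ring
  have hdet' : (a • M).det ∉ v.asIdeal := by
    rw [hdm]
    intro h0
    rcases v.isPrime.mem_or_mem h0 with h1 | h1
    · exact ha.nm (v.isPrime.mem_of_pow_mem 3 h1)
    · exact hdet h1
  exact Fd_mainS h (mul_ne_zero haL hδ) (Prs_smul h hpr a) hli' hM' hN' hchar' h6 hdet' ht hts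
    (Ideal.Quotient.mk v.asIdeal)
    (fun x => Ideal.Quotient.eq_zero_iff_mem) Ideal.Quotient.mk_surjective hw hla' χ
    (fun x hx => (hχ0 x).2 hx) hχ

end

end H54MQ
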