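import Pool.Agent.H54.MQ.Fd
import Pool.Agent.H76.MQ.Df

/-!
Block PC (project MP_78d38b_MQ, helper54): the data attached to a pair with a realised pattern (copy of
`Pool/Agent/H36/MT/Fe.lean`) and the count of these pairs (copy of `Pool/Agent/H36/MT/Zc.lean`).
-/

set_option autoImplicit false
set_option linter.unusedSectionVars false
open scoped Classical

open WithZero NumberField IsDedekindDomain H38RT
open scoped Matrix
open H38T1 (SC sc scu rep eo la si Pri OddP tp unif)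
open H76PP H54PP H36MT H76MQ

namespace H54MQ

theorem exists_datR (K : Type) [Field K] [NumberField K] (S : Finset (HeightOneSpectrum (𝓞 K)))
    (e₀ : ℕ) (he₀ : 1 ≤ e₀) : ∃ C₂ : ℝ, 1 ≤ C₂ ∧
    ∀ (q₀ : HeightOneSpectrum (𝓞 K)) (T : Finset (HeightOneSpectrum (𝓞 K))),
      (∀ v ∈ T, (6 : 𝓞 K) ∉ v.asIdeal ∧ v ∉ S) → ∀ (A B : 𝓞 K) (X : ℝ), 0 ≤ X → (A, B) ∈ Bx K X →
      FamS S e₀ q₀ T A B → ∀ r : HeightOneSpectrum (𝓞 K) → ZMod 2, BadR S T r A B →
      ∃ (l : Fin 3 → ℝ) (M N : Matrix (Fin 3) (Fin 3) (𝓞 K)), DatE (eps r) X C₂ T A B l M N := by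
  obtain ⟨C₂, hC₂, hred⟩ := reduceS K
  obtain ⟨r, hr0, hrS⟩ := exists_r S e₀
  have hrR : (1 : ℝ) ≤ (r : ℝ) := by exact_mod_cast hr0
  refine ⟨(r : ℝ) ^ 3 * C₂, one_le_mul_of_one_le_of_one_le (one_le_pow₀ hrR) hC₂, ?_⟩
  intro q₀ T hT A B X hX hAB hF rp hbad
  obtain ⟨L, _, _, _, θ, c, hcub, hc0, hcH, hcl⟩ := hbad
  obtain ⟨hcn, hce⟩ := mem_HH.1 hcH
  obtain ⟨δ, hδ, hδc⟩ := Fe_rep c
  have hδL : (δ : L) ≠ 0 := RingOfIntegers.coe_ne_zero_iff.mpr hδ
  obtain ⟨I, hI0, hIn, hI⟩ := sq_ideal hδ {w | dn K w ∈ S} (fun w hw => by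
    rw [hδc]
    exact hce w hw) (r := algebraMap (𝓞 K) (𝓞 L) (r : 𝓞 K)) (fun w hw => by
      have h1 : (r : 𝓞 K) ∈ (dn K w).asIdeal :=
        Ideal.pow_le_self (by omega) (hrS _ hw)
      exact h1)
  have hns : ¬ IsSquare (δ : L) := by
    rw [← H38T1.sc_eq_zero hδL, hδc]
    exact hc0
  have hNs : IsSquare (Algebra.norm K (δ : L)) := by
    have h1 : scm (Algebra.norm K : L →* K) (sc (δ : L)) = 0 := by rw [hδc]; exact hcn
    rw [scm_sc _ hδL] at h1
    exact (H38T1.sc_eq_zero (scm_ne _ hδL)).1 h1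
  have hd := hF.dsc_ne
  obtain ⟨e', heI, hli', l', hl', le01', le12', hprod'⟩ := hred L A B θ hcub hd δ I hδ hI0 hIn
  -- the vectors multiplied by `r`
  obtain ⟨e, he⟩ : ∃ e : Fin 3 → 𝓞 L, e = fun i => (r : 𝓞 L) * e' i := ⟨_, rfl⟩
  have heL : ∀ i, (e i : L) = (r : L) * (e' i : L) := by
    intro i
    rw [he]
    change algebraMap (𝓞 L) L ((r : 𝓞 L) * e' i) = _
    rw [map_mul, map_natCast]
  have hrL : (r : L) ≠ 0 := Nat.cast_ne_zero.2 hr0.ne'
  have hli : LinearIndependent K (fun i => (e i : L)) := by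
    have h1 : (fun i => (e i : L)) = fun i => (Units.mk0 (r : K) (Nat.cast_ne_zero.2 hr0.ne')) •
        (e' i : L) := by
      funext i
      rw [heL, Units.smul_def, Units.val_mk0, Algebra.smul_def, map_natCast]
    rw [h1]
    exact hli'.units_smul fun _ => Units.mk0 (r : K) (Nat.cast_ne_zero.2 hr0.ne')
  obtain ⟨l, hldef⟩ : ∃ l : Fin 3 → ℝ, l = fun i => (r : ℝ) * l' i := ⟨_, rfl⟩
  have hl : ∀ i, l i = √(qw (wt (δ : L) (3 * θ ^ 2 + algebraMap K L (A : K))) (e i : L)) := by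
    intro i
    rw [heL, sqrt_qw_mul, ← hl', hldef]
  have le01 : l 0 ≤ l 1 := by
    rw [hldef]
    exact mul_le_mul_of_nonneg_left le01' (by positivity)
  have le12 : l 1 ≤ l 2 := by
    rw [hldef]
    exact mul_le_mul_of_nonneg_left le12' (by positivity)
  have hprod : l 0 * l 1 * l 2 ≤ (r : ℝ) ^ 3 * C₂ := by
    rw [hldef]
    calc (r : ℝ) * l' 0 * ((r : ℝ) * l' 1) * ((r : ℝ) * l' 2)
        = (r : ℝ) ^ 3 * (l' 0 * l' 1 * l' 2) := by ring
      _ ≤ _ := mul_le_mul_of_nonneg_left hprod' (by positivity)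
  have hPrs : Prs hcub δ e := by
    intro i j
    obtain ⟨z, hz⟩ := hI (e' i) (heI i) (e' j) (heI j)
    obtain ⟨cc, hcc⟩ := int_mul hcub hF.sqf hF.bdd hrS z
    refine ⟨(r : 𝓞 L) * z, cc, ?_, fun k => ?_⟩
    · rw [he]
      have h1 : algebraMap (𝓞 K) (𝓞 L) (r : 𝓞 K) = (r : 𝓞 L) := map_natCast _ r
      rw [h1] at hz
      calc (r : 𝓞 L) * e' i * ((r : 𝓞 L) * e' j) = (r : 𝓞 L) * ((r : 𝓞 L) * (e' i * e' j)) := by
            ring
        _ = δ * ((r : 𝓞 L) * z) := by rw [hz]; ring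
    · have h1 : (((r : 𝓞 L) * z : 𝓞 L) : L) = (r : K) • (z : L) := by
        change algebraMap (𝓞 L) L ((r : 𝓞 L) * z) = _
        rw [map_mul, map_natCast, Algebra.smul_def, map_natCast]
      rw [h1, map_smul, smul_eq_mul, ← hcc k]
      congr 1
  have hM' : ∀ i j, ∃ m : 𝓞 K, (m : K) = Mx hcub (fun i => (e i : L)) (δ : L)⁻¹ i j := by
    intro i j
    obtain ⟨y, cc, hy, hcc⟩ := hPrs i j
    refine ⟨cc 2, ?_⟩
    have h2 : (e i : L) * (e j : L) * (δ : L)⁻¹ = (y : L) := by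
      have h3 := congrArg (algebraMap (𝓞 L) L) hy
      rw [map_mul, map_mul] at h3
      rw [h3]
      field_simp
    rw [← hcc 2, ← h2]
    rfl
  have hN' : ∀ i j, ∃ m : 𝓞 K, (m : K) = Nx hcub (fun i => (e i : L)) (δ : L)⁻¹ i j := by
    intro i j
    obtain ⟨y, cc, hy, hcc⟩ := hPrs i j
    have h2 : (e i : L) * (e j : L) * (δ : L)⁻¹ = (y : L) := by
      have h3 := congrArg (algebraMap (𝓞 L) L) hy
      rw [map_mul, map_mul] at h3
      rw [h3]
      field_simp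
    refine ⟨cc 1, ?_⟩
    have h4 : hcub.co 2 (θ * ((e i : L) * (e j : L) * (δ : L)⁻¹)) = hcub.co 1 (y : L) := by
      rw [h2]
      exact Ec_theta hcub (y : L)
    rw [← hcc 1, ← h4]
    rfl
  choose M₀ hM₀ using hM'
  choose N₀ hN₀ using hN'
  set M : Matrix (Fin 3) (Fin 3) (𝓞 K) := Matrix.of M₀ with hMdef
  set N : Matrix (Fin 3) (Fin 3) (𝓞 K) := Matrix.of N₀ with hNdef
  have hM : ∀ i j, (M i j : K) = Mx hcub (fun i => (e i : L)) (δ : L)⁻¹ i j := hM₀
  have hN : ∀ i j, (N i j : K) = Nx hcub (fun i => (e i : L)) (δ : L)⁻¹ i j := hN₀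
  have hinj : Function.Injective (algebraMap (𝓞 K) K) := RingOfIntegers.coe_injective
  have hMm : M.map (algebraMap (𝓞 K) K) = Mx hcub (fun i => (e i : L)) (δ : L)⁻¹ := by
    ext i j
    exact hM i j
  have hNm : N.map (algebraMap (𝓞 K) K) = Nx hcub (fun i => (e i : L)) (δ : L)⁻¹ := by
    ext i j
    exact hN i j
  have hdetM : algebraMap (𝓞 K) K M.det = (Mx hcub (fun i => (e i : L)) (δ : L)⁻¹).det := by
    rw [← hMm, RingHom.map_det]
    rfl
  have hMne := Mx_det hcub hli (inv_ne_zero hδL)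
  have hchar : ∀ x : 𝓞 K, (x • M - N).det = M.det * (x ^ 3 + A * x + B) := by
    intro x
    apply hinj
    rw [RingHom.map_det, map_mul, hdetM]
    have h4 : (algebraMap (𝓞 K) K).mapMatrix (x • M - N) =
        algebraMap (𝓞 K) K x • Mx hcub (fun i => (e i : L)) (δ : L)⁻¹ -
          Nx hcub (fun i => (e i : L)) (δ : L)⁻¹ := by
      rw [← hMm, ← hNm]
      ext i j
      change algebraMap (𝓞 K) K (x * M i j - N i j) =
        algebraMap (𝓞 K) K x * algebraMap (𝓞 K) K (M i j) - algebraMap (𝓞 K) K (N i j)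
      rw [map_sub, map_mul]
    rw [h4, Mx_char]
    simp only [map_add, map_mul, map_pow]
  refine ⟨l, M, N, ?_, ?_⟩
  refine ⟨?_, le01, le12, hprod, ?_, ?_, ?_, ?_, ?_, hchar, ?_, ?_, fun v hv => absurd hv (Finset.notMem_empty v)⟩
  · -- pos
    rw [hl 0, Real.sqrt_pos]
    unfold qw
    refine Finset.sum_pos (fun τ _ => ?_) Finset.univ_nonempty
    have h5 : (e 0 : L) ≠ 0 := hli.ne_zero 0
    have h6 : τ (e 0 : L) ≠ 0 := (map_ne_zero τ).2 h5
    have h7 : τ (δ : L) ≠ 0 := (map_ne_zero τ).2 hδL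
    have h8 : τ (3 * θ ^ 2 + algebraMap K L (A : K)) ≠ 0 := (map_ne_zero τ).2 (hcub.der_ne hd)
    unfold wt
    have h6' : 0 < ‖τ (e 0 : L)‖ := norm_pos_iff.2 h6
    have h7' : 0 < ‖τ (δ : L)‖ := norm_pos_iff.2 h7
    have h8' : 0 < ‖τ (3 * θ ^ 2 + algebraMap K L (A : K))‖ := norm_pos_iff.2 h8
    positivity
  · -- symM
    ext i j
    have h9 := congrFun (congrFun (Mx_symm hcub (fun i => (e i : L)) (δ : L)⁻¹) i) j
    rw [Matrix.transpose_apply] at h9 ⊢
    rw [hM j i, hM i j]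
    exact h9
  · -- symN
    ext i j
    have h9 := congrFun (congrFun (Nx_symm hcub (fun i => (e i : L)) (δ : L)⁻¹) i) j
    rw [Matrix.transpose_apply] at h9 ⊢
    rw [hN j i, hN i j]
    exact h9
  · -- detM
    intro h0
    apply hMne
    rw [← hdetM, h0, map_zero]
  · -- bdM
    intro s i j
    rw [hM i j, hl i, hl j]
    exact mx_bound hcub hd hδL s (e i : L) (e j : L)
  · -- bdN
    intro s i j
    rw [hN i j, hl i, hl j]
    exact nx_bound hcub hd hX hAB.1 hAB.2 hδL s (e i : L) (e j : L)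
  · -- red
    intro h00 hN0
    have h10 : hcub.co 2 ((e 0 : L) * (e 0 : L) * (δ : L)⁻¹) = 0 := by
      have := hM 0 0
      rw [h00] at this
      exact this.symm.trans (map_zero (algebraMap (𝓞 K) K))
    refine hcub.red hδL (hli.ne_zero 0) hNs hns h10 ?_
    have := hN 0 0
    rw [hN0] at this
    exact this.symm.trans (map_zero (algebraMap (𝓞 K) K))
  · -- fix
    rintro Q hQM hQN ⟨v, hv, hQv⟩
    have hinf : Infinite K := Infinite.of_injective ((↑) : ℕ → K) Nat.cast_injective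
    set Q' := (algebraMap (𝓞 K) K).mapMatrix Q with hQ'
    have hMm' : (algebraMap (𝓞 K) K).mapMatrix M = Mx hcub (fun i => (e i : L)) (δ : L)⁻¹ := hMm
    have hNm' : (algebraMap (𝓞 K) K).mapMatrix N = Nx hcub (fun i => (e i : L)) (δ : L)⁻¹ := hNm
    have hQT : Q'ᵀ = (algebraMap (𝓞 K) K).mapMatrix Qᵀ := rfl
    have hfix := fix_one (F := K) (M := Mx hcub (fun i => (e i : L)) (δ : L)⁻¹)
      (N := Nx hcub (fun i => (e i : L)) (δ : L)⁻¹) (Q := Q') (a := (A : K)) (b := (B : K))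
      (e := fun i => (v i : K)) hMne (fun x => Mx_char _ _ _ x) (hF.no_root)
      (by rw [← hMm', hQT, hQ', ← map_mul, ← map_mul, hQM])
      (by rw [← hNm', hQT, hQ', ← map_mul, ← map_mul, hQN])
      (by
        intro h0
        apply hv
        refine funext (fun i => ?_)
        have := congrFun h0 i
        have h15 : algebraMap (𝓞 K) K (v i) = algebraMap (𝓞 K) K 0 := by
          rw [map_zero]; exact this
        exact hinj h15)
      (by
        ext i
        have h11 := congrFun hQv i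
        have h12 := congrArg (algebraMap (𝓞 K) K) h11
        change (Q'.mulVec fun i => (v i : K)) i = algebraMap (𝓞 K) K (v i)
        rw [← h12]
        simp [hQ', Matrix.mulVec, dotProduct, Matrix.map_apply])
    have h13 : (algebraMap (𝓞 K) K).mapMatrix Q = (algebraMap (𝓞 K) K).mapMatrix 1 := by
      rw [map_one]; exact hfix
    exact Matrix.map_injective hinj h13
  · -- res
    intro v hv hdet
    exact res_condR hcub hδ hPrs hli hM hN hchar (hF.sqf v (hT v hv).2) (hT v hv).1 (hF.typ v hv)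
      (eps_ok rp (hT v hv).1)
      (fun w hw => by rw [hδc, hcl w (by rw [hw]; exact hv), hw]) hdet

end H54MQ
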